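import Mathlib

/-!
Polylines with prescribed slopes, EPG(D)-representations and bend numbers.
-/

set_option autoImplicit false

namespace Pool.Agent.H62.Bend

open Set

/-- The plane. -/
abbrev Pt := ℝ × ℝ

/-- The points `c 0, c 1, …, c (m + 1)` are the vertices of a polyline with `m` bends all of whose
`m + 1` segments are parallel to lines of `D` (consecutive segments are not collinear). -/
structure IsPolyline (D : Finset (Submodule ℝ Pt)) (m : ℕ) (c : ℕ → Pt) : Prop where
  ne : ∀ i ≤ m, c i ≠ c (i + 1)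
  slope : ∀ i ≤ m, ∃ L ∈ D, c (i + 1) - c i ∈ L
  bend : ∀ i < m, ¬ Collinear ℝ {c i, c (i + 1), c (i + 2)}

/-- The set of points of the polyline with vertices `c 0, …, c (m + 1)`. -/
def trace (m : ℕ) (c : ℕ → Pt) : Set Pt := ⋃ i ≤ m, segment ℝ (c i) (c (i + 1))

/-- `G` has an EPG(D)-representation in which every polyline has at most `k` bends. -/
def HasRep (D : Finset (Submodule ℝ Pt)) (k : ℕ) {V : Type} (G : SimpleGraph V) : Prop :=
  ∃ P : V → Set Pt, (∀ x, ∃ m ≤ k, ∃ c, IsPolyline D m c ∧ P x = trace m c) ∧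
    ∀ x y, x ≠ y → (G.Adj x y ↔ (P x ∩ P y).Infinite)

/-- `D` is a set of `d` (pairwise non-parallel) lines through the origin. -/
def IsSlopeSet (d : ℕ) (D : Finset (Submodule ℝ Pt)) : Prop :=
  (∀ L ∈ D, Module.finrank ℝ L = 1) ∧ D.card = d

/-- `β_D(G)`: the least `k` such that `G` has an EPG(D)-representation in which every polyline
has at most `k` bends (`⊤` if there were none). -/
noncomputable def beta (D : Finset (Submodule ℝ Pt)) {V : Type} (G : SimpleGraph V) : ℕ∞ :=
  ⨅ k ∈ {k : ℕ | HasRep D k G}, (k : ℕ∞)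

/-- The `d`-bend number `b_d(G)`: the least `β_D(G)` over all sets `D` of `d` slopes. -/
noncomputable def bendNumber (d : ℕ) {V : Type} (G : SimpleGraph V) : ℕ∞ :=
  ⨅ D ∈ {D : Finset (Submodule ℝ Pt) | IsSlopeSet d D}, beta D G

end Pool.Agent.H62.Bend
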