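import Mathlib
import Pool.Agent.H62.Bend0

/-!
Polylines with at most one bend whose segments have directions in a family `v` of pairwise
non-parallel vectors: the abstract rigidity argument.
-/

set_option autoImplicit false

namespace Pool.Agent.H62.Bend

/-- The determinant of two plane vectors. -/
def det (u w : Pt) : ℝ := u.1 * w.2 - u.2 * w.1

/-- A polyline with at most one bend: the base point `p` (its bend) and the signed lengths `T d`
of its arms in the directions `d`; the arms are those in the directions `a` and `b`. -/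
structure PL (ι : Type*) where
  p : Pt
  T : ι → ℝ
  a : ι
  b : ι
  ha : T a ≠ 0
  hb : T b ≠ 0
  hT : ∀ c, T c ≠ 0 → c = a ∨ c = b

/-- The open intervals between `a` and `a + t` and between `b` and `b + s` meet. -/
def ovI (a t b s : ℝ) : Prop :=
  max (min a (a + t)) (min b (b + s)) < min (max a (a + t)) (max b (b + s))

section
variable {ι : Type*} (v : ι → Pt)

/-- `P` and `Q` overlap along the direction `d`. -/
def ovAt (d : ι) (P Q : PL ι) : Prop :=
  ∃ τ : ℝ, P.T d ≠ 0 ∧ Q.T d ≠ 0 ∧ Q.p = P.p + τ • v d ∧ ovI 0 (P.T d) τ (Q.T d)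

/-- `P` and `Q` overlap. -/
def ov (P Q : PL ι) : Prop := ∃ d, ovAt v d P Q

/-- `P` and `Q` have the same bend and opposite arms. -/
def Opp (P Q : PL ι) : Prop :=
  P.p = Q.p ∧ ∀ d, (0 < P.T d ↔ Q.T d < 0) ∧ (P.T d < 0 ↔ 0 < Q.T d)

/-- The directions are pairwise non-parallel. -/
def Indep : Prop := (∀ d, v d ≠ 0) ∧ ∀ d e, d ≠ e → det (v d) (v e) ≠ 0

variable {v}

lemma smul_inj (hv : Indep v) {d : ι} {s t : ℝ} (h : s • v d = t • v d) : s = t := by
  by_contra hne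
  have : (s - t) • v d = 0 := by rw [sub_smul, h, sub_self]
  rcases smul_eq_zero.1 this with h1 | h1
  · exact hne (sub_eq_zero.1 h1)
  · exact hv.1 d h1

lemma smul_cross (hv : Indep v) {d e : ι} (hde : d ≠ e) {s t : ℝ} (h : s • v d = t • v e) :
    s = 0 ∧ t = 0 := by
  have hD := hv.2 d e hde
  have h1 : s * (v d).1 = t * (v e).1 := by simpa using congrArg Prod.fst h
  have h2 : s * (v d).2 = t * (v e).2 := by simpa using congrArg Prod.snd h
  unfold det at hD
  constructor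
  · have : s * ((v d).1 * (v e).2 - (v d).2 * (v e).1) = 0 := by linear_combination (v e).2 * h1 - (v e).1 * h2
    rcases mul_eq_zero.1 this with h | h
    · exact h
    · exact absurd h hD
  · have : t * ((v d).1 * (v e).2 - (v d).2 * (v e).1) = 0 := by linear_combination (v d).2 * h1 - (v d).1 * h2
    rcases mul_eq_zero.1 this with h | h
    · exact h
    · exact absurd h hD

lemma ovI_iff (a t b s : ℝ) : ovI a t b s ↔
    (min a (a + t) < max a (a + t) ∧ min a (a + t) < max b (b + s)) ∧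
    (min b (b + s) < max a (a + t) ∧ min b (b + s) < max b (b + s)) := by
  unfold ovI
  rw [max_lt_iff, lt_min_iff, lt_min_iff]

lemma ovI_shift (a t b s c : ℝ) : ovI a t b s ↔ ovI (a + c) t (b + c) s := by
  unfold ovI
  have h1 : min (a + c) (a + c + t) = min a (a + t) + c := by rw [← min_add_add_right]; ring_nf
  have h2 : max (a + c) (a + c + t) = max a (a + t) + c := by rw [← max_add_add_right]; ring_nf
  have h3 : min (b + c) (b + c + s) = min b (b + s) + c := by rw [← min_add_add_right]; ring_nf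
  have h4 : max (b + c) (b + c + s) = max b (b + s) + c := by rw [← max_add_add_right]; ring_nf
  rw [h1, h2, h3, h4, max_add_add_right, min_add_add_right]
  exact ⟨fun h => by linarith, fun h => by linarith⟩

lemma ovI_comm (a t b s : ℝ) : ovI a t b s ↔ ovI b s a t := by
  unfold ovI
  rw [max_comm, min_comm (max a _)]

lemma ovAt_symm {d : ι} {P Q : PL ι} (h : ovAt v d P Q) : ovAt v d Q P := by
  obtain ⟨τ, h1, h2, h3, h4⟩ := h
  refine ⟨-τ, h2, h1, ?_, ?_⟩
  · rw [h3]; simp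
  · rw [ovI_comm, ovI_shift _ _ _ _ (-τ)] at h4
    simpa using h4

lemma ov_symm {P Q : PL ι} (h : ov v P Q) : ov v Q P := by
  obtain ⟨d, h⟩ := h
  exact ⟨d, ovAt_symm h⟩

lemma ovI_zero_iff {t s : ℝ} (ht : t ≠ 0) (hs : s ≠ 0) : ovI 0 t 0 s ↔ 0 < t * s := by
  rw [ovI_iff]
  simp only [zero_add]
  rcases lt_or_gt_of_ne ht with h1 | h1 <;> rcases lt_or_gt_of_ne hs with h2 | h2
  · rw [min_eq_right h1.le, min_eq_right h2.le, max_eq_left h1.le, max_eq_left h2.le]
    exact ⟨fun _ => mul_pos_of_neg_of_neg h1 h2, fun _ => ⟨⟨h1, h1⟩, ⟨h2, h2⟩⟩⟩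
  · rw [min_eq_right h1.le, min_eq_left h2.le, max_eq_left h1.le, max_eq_right h2.le]
    constructor
    · rintro ⟨_, h, _⟩; exact absurd h (lt_irrefl _)
    · intro h; nlinarith
  · rw [min_eq_left h1.le, min_eq_right h2.le, max_eq_right h1.le, max_eq_left h2.le]
    constructor
    · rintro ⟨⟨_, h⟩, _⟩; exact absurd h (lt_irrefl _)
    · intro h; nlinarith
  · rw [min_eq_left h1.le, min_eq_left h2.le, max_eq_right h1.le, max_eq_right h2.le]
    exact ⟨fun _ => mul_pos h1 h2, fun _ => ⟨⟨h1, h2⟩, ⟨h1, h2⟩⟩⟩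

/-- Two polylines with the same base point overlap along `d` iff their arms have equal signs. -/
lemma ovAt_same (hv : Indep v) {P Q : PL ι} (hp : P.p = Q.p) (d : ι) :
    ovAt v d P Q ↔ 0 < P.T d * Q.T d := by
  constructor
  · rintro ⟨τ, h1, h2, h3, h4⟩
    have : τ = 0 := by
      have : (0 : ℝ) • v d = τ • v d := by
        have h5 : Q.p = Q.p + τ • v d := by rw [hp] at h3; exact h3
        have h6 : τ • v d = 0 := by simpa using h5
        rw [h6, zero_smul]
      exact (smul_inj hv this).symm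
    subst this
    exact (ovI_zero_iff h1 h2).1 h4
  · intro h
    have h1 : P.T d ≠ 0 := fun h0 => by rw [h0, zero_mul] at h; exact lt_irrefl _ h
    have h2 : Q.T d ≠ 0 := fun h0 => by rw [h0, mul_zero] at h; exact lt_irrefl _ h
    exact ⟨0, h1, h2, by rw [hp]; simp, (ovI_zero_iff h1 h2).2 h⟩

/-- The fibre lemma. -/
lemma fibre (hv : Indep v) {A B C C' : PL ι} {x y : ι}
    (h1 : ovAt v x C A) (h2 : ovAt v y C B) (h3 : ovAt v x C' A) (h4 : ovAt v y C' B)
    (hAB : ¬ ov v A B) (hCC : ¬ ov v C C') : Opp C C' := by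
  obtain ⟨τ1, a1, b1, c1, d1⟩ := h1
  obtain ⟨τ2, a2, b2, c2, d2⟩ := h2
  obtain ⟨τ3, a3, b3, c3, d3⟩ := h3
  obtain ⟨τ4, a4, b4, c4, d4⟩ := h4
  by_cases hxy : x = y
  · subst hxy
    exfalso
    have e1 : C'.p = C.p + (τ1 - τ3) • v x := by
      rw [c1] at c3
      rw [sub_smul]
      have : C'.p = C.p + τ1 • v x - τ3 • v x := by rw [c3]; simp
      rw [this]; abel
    have e2 : B.p = A.p + (τ2 - τ1) • v x := by
      rw [c2, c1, sub_smul]; abel
    have e3 : τ4 = τ2 - (τ1 - τ3) := by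
      have : τ4 • v x = (τ2 - (τ1 - τ3)) • v x := by
        rw [e1, c2] at c4
        have h5 : τ4 • v x = τ2 • v x - (τ1 - τ3) • v x := by
          have h6 : τ2 • v x = (τ1 - τ3) • v x + τ4 • v x := by
            have := c4
            rw [add_assoc] at this
            exact add_left_cancel this
          rw [h6]; abel
        rw [h5, sub_smul τ2]
      exact smul_inj hv this
    have k1 : ¬ ovI 0 (A.T x) (τ2 - τ1) (B.T x) := fun h => hAB ⟨x, τ2 - τ1, b1, b2, e2, h⟩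
    have k2 : ¬ ovI 0 (C.T x) (τ1 - τ3) (C'.T x) := fun h => hCC ⟨x, τ1 - τ3, a1, a3, e1, h⟩
    rw [ovI_shift _ _ _ _ τ1] at k1
    rw [ovI_shift _ _ _ _ (τ1 - τ3)] at d3 d4
    rw [e3] at d4
    have r1 : τ2 - τ1 + τ1 = τ2 := by ring
    have r2 : τ3 + (τ1 - τ3) = τ1 := by ring
    have r3 : τ2 - (τ1 - τ3) + (τ1 - τ3) = τ2 := by ring
    rw [zero_add, r1] at k1
    rw [zero_add, r2] at d3
    rw [zero_add, r3] at d4
    rw [ovI_iff] at d1 d2 d3 d4 k1 k2
    have n1 : min τ1 (τ1 + A.T x) < max τ1 (τ1 + A.T x) := d1.2.2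
    have n2 : min τ2 (τ2 + B.T x) < max τ2 (τ2 + B.T x) := d2.2.2
    have n3 : min (0 : ℝ) (0 + C.T x) < max 0 (0 + C.T x) := d1.1.1
    have n4 : min (τ1 - τ3) (τ1 - τ3 + C'.T x) < max (τ1 - τ3) (τ1 - τ3 + C'.T x) := d3.1.1
    have k1' : max τ2 (τ2 + B.T x) ≤ min τ1 (τ1 + A.T x) ∨
        max τ1 (τ1 + A.T x) ≤ min τ2 (τ2 + B.T x) := by
      by_contra hcon
      push Not at hcon
      exact k1 ⟨⟨n1, hcon.1⟩, ⟨hcon.2, n2⟩⟩
    have k2' : max (τ1 - τ3) (τ1 - τ3 + C'.T x) ≤ min (0 : ℝ) (0 + C.T x) ∨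
        max (0 : ℝ) (0 + C.T x) ≤ min (τ1 - τ3) (τ1 - τ3 + C'.T x) := by
      by_contra hcon
      push Not at hcon
      exact k2 ⟨⟨n3, hcon.1⟩, ⟨hcon.2, n4⟩⟩
    obtain ⟨⟨_, p2⟩, p3, _⟩ := d1
    obtain ⟨⟨_, q2⟩, q3, _⟩ := d2
    obtain ⟨⟨_, r2⟩, r3, _⟩ := d3
    obtain ⟨⟨_, s2⟩, s3, _⟩ := d4
    rcases k1' with k1' | k1' <;> rcases k2' with k2' | k2' <;> linarith
  · have hp : C.p = C'.p := by
      -- C'.p - C.p is a multiple of v x and of v y
      have e1 : C'.p - C.p = (τ1 - τ3) • v x := by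
        rw [c1] at c3
        have : C'.p = C.p + τ1 • v x - τ3 • v x := by rw [c3]; simp
        rw [this, sub_smul]; abel
      have e2 : C'.p - C.p = (τ2 - τ4) • v y := by
        rw [c2] at c4
        have : C'.p = C.p + τ2 • v y - τ4 • v y := by rw [c4]; simp
        rw [this, sub_smul]; abel
      have := smul_cross hv hxy (e1.symm.trans e2)
      rw [this.1, zero_smul] at e1
      exact (sub_eq_zero.1 e1).symm
    have hx : ¬ 0 < C.T x * C'.T x := fun h => hCC ⟨x, (ovAt_same hv hp x).2 h⟩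
    have hy : ¬ 0 < C.T y * C'.T y := fun h => hCC ⟨y, (ovAt_same hv hp y).2 h⟩
    refine ⟨hp, fun d => ?_⟩
    have supp : ∀ P : PL ι, P.T x ≠ 0 → P.T y ≠ 0 → ∀ d, d ≠ x → d ≠ y → P.T d = 0 := by
      intro P hx hy d hdx hdy
      by_contra hd
      rcases P.hT x hx with h1 | h1 <;> rcases P.hT y hy with h2 | h2 <;>
        rcases P.hT d hd with h3 | h3
      · exact hxy (h1.trans h2.symm)
      · exact hxy (h1.trans h2.symm)
      · exact hdx (h3.trans h1.symm)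
      · exact hdy (h3.trans h2.symm)
      · exact hdy (h3.trans h2.symm)
      · exact hdx (h3.trans h1.symm)
      · exact hxy (h1.trans h2.symm)
      · exact hxy (h1.trans h2.symm)
    have key : ∀ s t : ℝ, s ≠ 0 → t ≠ 0 → ¬ 0 < s * t → (0 < s ↔ t < 0) ∧ (s < 0 ↔ 0 < t) := by
      intro s t hs ht h
      rcases lt_or_gt_of_ne hs with h1 | h1 <;> rcases lt_or_gt_of_ne ht with h2 | h2
      · exact absurd (mul_pos_of_neg_of_neg h1 h2) h
      · exact ⟨⟨fun h => by linarith, fun h => by linarith⟩, ⟨fun _ => h2, fun _ => h1⟩⟩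
      · exact ⟨⟨fun _ => h2, fun _ => h1⟩, ⟨fun h => by linarith, fun h => by linarith⟩⟩
      · exact absurd (mul_pos h1 h2) h
    by_cases hdx : d = x
    · subst hdx; exact key _ _ a1 a3 hx
    by_cases hdy : d = y
    · subst hdy; exact key _ _ a2 a4 hy
    rw [supp C a1 a2 d hdx hdy, supp C' a3 a4 d hdx hdy]
    simp

lemma Opp.symm {P Q : PL ι} (h : Opp P Q) : Opp Q P :=
  ⟨h.1.symm, fun d => ⟨(h.2 d).2.symm, (h.2 d).1.symm⟩⟩

/-- Two polylines opposite to the same one overlap. -/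
lemma opp_opp (hv : Indep v) {P Q R : PL ι} (h1 : Opp P Q) (h2 : Opp P R) : ov v Q R := by
  refine ⟨P.a, (ovAt_same hv (h1.1.symm.trans h2.1) P.a).2 ?_⟩
  rcases lt_or_gt_of_ne P.ha with h | h
  · exact mul_pos ((h1.2 _).2.1 h) ((h2.2 _).2.1 h)
  · exact mul_pos_of_neg_of_neg ((h1.2 _).1.1 h) ((h2.2 _).1.1 h)

lemma pigeon (g : Fin 8 → Bool × Bool)
    (h : ∀ i j k, i ≠ j → i ≠ k → j ≠ k → g i = g j → g i = g k → False) (i : Fin 8) :
    ∃ j, j ≠ i ∧ g i = g j := by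
  classical
  by_contra hcon
  push Not at hcon
  have h1 : (Finset.univ : Finset (Fin 8)).card =
      ∑ b ∈ (Finset.univ : Finset (Bool × Bool)), (Finset.univ.filter fun x => g x = b).card :=
    Finset.card_eq_sum_card_fiberwise (fun x _ => Finset.mem_coe.2 (Finset.mem_univ _))
  have h2 : ∀ b : Bool × Bool, (Finset.univ.filter fun x => g x = b).card ≤ 2 := by
    intro b
    by_contra hb
    push Not at hb
    obtain ⟨x, hx, y, hy, z, hz, hxy, hxz, hyz⟩ := Finset.two_lt_card.1 hb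
    simp only [Finset.mem_filter, Finset.mem_univ, true_and] at hx hy hz
    exact h x y z hxy hxz hyz (hx.trans hy.symm) (hx.trans hz.symm)
  have h3 : (Finset.univ.filter fun x => g x = g i).card ≤ 1 := by
    rw [Finset.card_le_one]
    intro x hx y hy
    simp only [Finset.mem_filter, Finset.mem_univ, true_and] at hx hy
    have hx' : x = i := by
      by_contra hne
      exact hcon x hne hx.symm
    have hy' : y = i := by
      by_contra hne
      exact hcon y hne hy.symm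
    rw [hx', hy']
  have h4 : ∑ b ∈ (Finset.univ : Finset (Bool × Bool)), (Finset.univ.filter fun x => g x = b).card
      < ∑ _b ∈ (Finset.univ : Finset (Bool × Bool)), 2 :=
    Finset.sum_lt_sum (fun b _ => h2 b) ⟨g i, Finset.mem_univ _, by omega⟩
  rw [← h1] at h4
  simp at h4

/-- The complete bipartite pattern `K_{2,8}` (on a relation `R`). -/
structure K28 {V : Type*} (R : V → V → Prop) (A B : V) (C : Fin 8 → V) : Prop where
  hAB : ¬ R A B
  hA : ∀ i, R (C i) A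
  hB : ∀ i, R (C i) B
  hC : ∀ i j, i ≠ j → ¬ R (C i) (C j)

/-- In a `K_{2,8}` the eight common neighbours come in opposite pairs. -/
lemma K28.partner (hv : Indep v) {A B : PL ι} {C : Fin 8 → PL ι} (h : K28 (ov v) A B C)
    (i : Fin 8) : ∃ j, j ≠ i ∧ Opp (C i) (C j) := by
  classical
  choose x hx using h.hA
  choose y hy using h.hB
  have hxA : ∀ i, x i = A.a ∨ x i = A.b := fun i => by
    obtain ⟨τ, _, h2, _⟩ := hx i
    exact A.hT _ h2
  have hyB : ∀ i, y i = B.a ∨ y i = B.b := fun i => by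
    obtain ⟨τ, _, h2, _⟩ := hy i
    exact B.hT _ h2
  let g : Fin 8 → Bool × Bool := fun i => (decide (x i = A.a), decide (y i = B.a))
  have hg : ∀ i j, g i = g j → x i = x j ∧ y i = y j := by
    intro i j hij
    simp only [g, Prod.mk.injEq, decide_eq_decide] at hij
    obtain ⟨h1, h2⟩ := hij
    constructor
    · rcases hxA i with h | h
      · rw [h, h1.1 h]
      · rcases hxA j with h' | h'
        · rw [h', h1.2 h']
        · rw [h, h']
    · rcases hyB i with h | h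
      · rw [h, h2.1 h]
      · rcases hyB j with h' | h'
        · rw [h', h2.2 h']
        · rw [h, h']
  have hopp : ∀ i j, i ≠ j → g i = g j → Opp (C i) (C j) := by
    intro i j hij hgij
    obtain ⟨h1, h2⟩ := hg i j hgij
    refine fibre hv (hx i) (hy i) ?_ ?_ h.hAB (h.hC i j hij)
    · rw [h1]; exact hx j
    · rw [h2]; exact hy j
  obtain ⟨j, hj, hgj⟩ := pigeon g (by
    intro i j k hij hik hjk h1 h2
    exact h.hC j k hjk (opp_opp hv (hopp i j hij h1) (hopp i k hik h2))) i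
  exact ⟨j, hj, hopp i j hj.symm hgj⟩

/-- The first eight common neighbours in the gadget. -/
def idx1 : Fin 8 → Fin 18 := ![0, 1, 2, 3, 4, 5, 6, 7]

/-- The second eight common neighbours in the gadget. -/
def idx2 : Fin 8 → Fin 18 := ![0, 1, 8, 9, 10, 11, 12, 13]

/-- The gadget forcing `g 0` and `g 1` to be opposite. -/
structure OPG {V : Type*} (R : V → V → Prop) (g : Fin 18 → V) : Prop where
  k1 : K28 R (g 14) (g 15) (fun i => g (idx1 i))
  k2 : K28 R (g 16) (g 17) (fun i => g (idx2 i))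
  k3 : ∀ i j : Fin 8, i ≠ 0 → i ≠ 1 → j ≠ 0 → j ≠ 1 → ¬ R (g (idx1 i)) (g (idx2 j))

lemma OPG.opp (hv : Indep v) {g : Fin 18 → PL ι} (h : OPG (ov v) g) : Opp (g 0) (g 1) := by
  obtain ⟨j, hj, hj'⟩ := h.k1.partner hv 0
  obtain ⟨l, hl, hl'⟩ := h.k2.partner hv 0
  by_cases hj1 : j = 1
  · subst hj1; exact hj'
  by_cases hl1 : l = 1
  · subst hl1; exact hl'
  exact absurd (opp_opp hv hj' hl') (h.k3 j l hj hj1 hl hl1)

/-- Coincidence of bends: the interval computation. -/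
lemma coinc_aux {t t' s s' τ : ℝ} (hτ : τ ≠ 0)
    (ht : (0 < t ↔ t' < 0) ∧ (t < 0 ↔ 0 < t')) (hs : (0 < s ↔ s' < 0) ∧ (s < 0 ↔ 0 < s'))
    (ht0 : t ≠ 0) (hs0 : s ≠ 0)
    (h1 : ovI 0 t τ s) (h2 : ovI 0 t' τ s') (h3 : ¬ ovI 0 t τ s') (h4 : ¬ ovI 0 t' τ s) :
    False := by
  rw [ovI_iff] at h1 h2 h3 h4
  simp only [zero_add] at h1 h2 h3 h4
  rcases lt_or_gt_of_ne ht0 with ht1 | ht1
  · have ht2 : 0 < t' := ht.2.1 ht1
    rcases lt_or_gt_of_ne hs0 with hs1 | hs1
    · have hs2 : 0 < s' := hs.2.1 hs1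
      rw [min_eq_right ht1.le, max_eq_left ht1.le, min_eq_right (by linarith : τ + s ≤ τ),
        max_eq_left (by linarith : τ + s ≤ τ)] at h1
      rw [min_eq_left ht2.le, max_eq_right ht2.le, min_eq_left (by linarith : τ ≤ τ + s'),
        max_eq_right (by linarith : τ ≤ τ + s')] at h2
      rw [min_eq_right ht1.le, max_eq_left ht1.le, min_eq_left (by linarith : τ ≤ τ + s'),
        max_eq_right (by linarith : τ ≤ τ + s')] at h3
      rw [min_eq_left ht2.le, max_eq_right ht2.le, min_eq_right (by linarith : τ + s ≤ τ),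
        max_eq_left (by linarith : τ + s ≤ τ)] at h4
      obtain ⟨⟨_, a2⟩, a3, a4⟩ := h1
      obtain ⟨⟨_, b2⟩, b3, b4⟩ := h2
      rcases lt_or_gt_of_ne hτ with hτ1 | hτ1
      · exact h3 ⟨⟨ht1, by linarith⟩, ⟨by linarith, by linarith⟩⟩
      · exact h4 ⟨⟨ht2, by linarith⟩, ⟨by linarith, by linarith⟩⟩
    · have hs2 : s' < 0 := hs.1.1 hs1
      rw [min_eq_right ht1.le, max_eq_left ht1.le, min_eq_left (by linarith : τ ≤ τ + s),
        max_eq_right (by linarith : τ ≤ τ + s)] at h1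
      rw [min_eq_left ht2.le, max_eq_right ht2.le, min_eq_right (by linarith : τ + s' ≤ τ),
        max_eq_left (by linarith : τ + s' ≤ τ)] at h2
      rw [min_eq_right ht1.le, max_eq_left ht1.le, min_eq_right (by linarith : τ + s' ≤ τ),
        max_eq_left (by linarith : τ + s' ≤ τ)] at h3
      rw [min_eq_left ht2.le, max_eq_right ht2.le, min_eq_left (by linarith : τ ≤ τ + s),
        max_eq_right (by linarith : τ ≤ τ + s)] at h4
      obtain ⟨⟨_, a2⟩, a3, a4⟩ := h1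
      obtain ⟨⟨_, b2⟩, b3, b4⟩ := h2
      rcases lt_or_gt_of_ne hτ with hτ1 | hτ1
      · exact h4 ⟨⟨ht2, by linarith⟩, ⟨by linarith, by linarith⟩⟩
      · linarith
  · have ht2 : t' < 0 := ht.1.1 ht1
    rcases lt_or_gt_of_ne hs0 with hs1 | hs1
    · have hs2 : 0 < s' := hs.2.1 hs1
      rw [min_eq_left ht1.le, max_eq_right ht1.le, min_eq_right (by linarith : τ + s ≤ τ),
        max_eq_left (by linarith : τ + s ≤ τ)] at h1
      rw [min_eq_right ht2.le, max_eq_left ht2.le, min_eq_left (by linarith : τ ≤ τ + s'),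
        max_eq_right (by linarith : τ ≤ τ + s')] at h2
      rw [min_eq_left ht1.le, max_eq_right ht1.le, min_eq_left (by linarith : τ ≤ τ + s'),
        max_eq_right (by linarith : τ ≤ τ + s')] at h3
      rw [min_eq_right ht2.le, max_eq_left ht2.le, min_eq_right (by linarith : τ + s ≤ τ),
        max_eq_left (by linarith : τ + s ≤ τ)] at h4
      obtain ⟨⟨_, a2⟩, a3, a4⟩ := h1
      obtain ⟨⟨_, b2⟩, b3, b4⟩ := h2
      rcases lt_or_gt_of_ne hτ with hτ1 | hτ1
      · linarith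
      · linarith
    · have hs2 : s' < 0 := hs.1.1 hs1
      rw [min_eq_left ht1.le, max_eq_right ht1.le, min_eq_left (by linarith : τ ≤ τ + s),
        max_eq_right (by linarith : τ ≤ τ + s)] at h1
      rw [min_eq_right ht2.le, max_eq_left ht2.le, min_eq_right (by linarith : τ + s' ≤ τ),
        max_eq_left (by linarith : τ + s' ≤ τ)] at h2
      rw [min_eq_left ht1.le, max_eq_right ht1.le, min_eq_right (by linarith : τ + s' ≤ τ),
        max_eq_left (by linarith : τ + s' ≤ τ)] at h3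
      rw [min_eq_right ht2.le, max_eq_left ht2.le, min_eq_left (by linarith : τ ≤ τ + s),
        max_eq_right (by linarith : τ ≤ τ + s)] at h4
      obtain ⟨⟨_, a2⟩, a3, a4⟩ := h1
      obtain ⟨⟨_, b2⟩, b3, b4⟩ := h2
      rcases lt_or_gt_of_ne hτ with hτ1 | hτ1
      · exact h4 ⟨⟨ht2, by linarith⟩, ⟨by linarith, by linarith⟩⟩
      · exact h3 ⟨⟨ht1, by linarith⟩, ⟨by linarith, by linarith⟩⟩

/-- Coincidence of bends. -/
lemma coinc (hv : Indep v) {C C' E E' : PL ι} (hC : Opp C C') (hE : Opp E E')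
    (h1 : ov v C E) (h2 : ov v C' E') (h3 : ¬ ov v C E') (h4 : ¬ ov v C' E) : C.p = E.p := by
  obtain ⟨d, τ, a1, b1, c1, d1⟩ := h1
  obtain ⟨e, σ, a2, b2, c2, d2⟩ := h2
  have hp : E.p = C.p + σ • v e := by rw [hE.1, hC.1]; exact c2
  have hpd : τ • v d = σ • v e := add_left_cancel (c1.symm.trans hp)
  by_cases hde : d = e
  · subst hde
    have hτσ : τ = σ := smul_inj hv hpd
    subst hτσ
    by_cases hτ : τ = 0
    · rw [c1, hτ, zero_smul, add_zero]
    · exfalso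
      refine coinc_aux hτ (hC.2 d) (hE.2 d) a1 b1 d1 d2 ?_ ?_
      · intro h
        exact h3 ⟨d, τ, a1, b2, by rw [← hE.1]; exact c1, h⟩
      · intro h
        exact h4 ⟨d, τ, a2, b1, by rw [← hC.1]; exact c1, h⟩
  · have := (smul_cross hv hde hpd).1
    rw [c1, this, zero_smul, add_zero]

/-- Different bends. -/
lemma bend_ne (hv : Indep v) {C C' D D' : PL ι} (hC : Opp C C') (hD : Opp D D')
    (h1 : ov v C D) (h2 : ¬ ov v C' D') : C.p ≠ D.p := by
  intro hp
  obtain ⟨d, hd⟩ := h1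
  have h3 := (ovAt_same hv hp d).1 hd
  apply h2
  refine ⟨d, (ovAt_same hv ((hC.1.symm.trans hp).trans hD.1) d).2 ?_⟩
  rcases pos_and_pos_or_neg_and_neg_of_mul_pos h3 with ⟨h, h'⟩ | ⟨h, h'⟩
  · exact mul_pos_of_neg_of_neg (((hC.2 d).1).1 h) (((hD.2 d).1).1 h')
  · exact mul_pos (((hC.2 d).2).1 h) (((hD.2 d).2).1 h')

/-- The interval computation for two adjacent corners on a line. -/
lemma step_aux {t t' s s' σ : ℝ} (hσ : σ ≠ 0)
    (ht : (0 < t ↔ t' < 0) ∧ (t < 0 ↔ 0 < t')) (hs : (0 < s ↔ s' < 0) ∧ (s < 0 ↔ 0 < s'))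
    (ht0 : t ≠ 0) (hs0 : s ≠ 0)
    (h1 : ovI 0 t σ s) (h2 : ¬ ovI 0 t σ s') (h3 : ¬ ovI 0 t' σ s) :
    (0 < σ ∧ 0 < t ∧ t ≤ σ ∧ s < 0 ∧ σ + s < t) ∨
      (σ < 0 ∧ t < 0 ∧ σ ≤ t ∧ 0 < s ∧ t < σ + s) := by
  rw [ovI_iff] at h1 h2 h3
  simp only [zero_add] at h1 h2 h3
  rcases lt_or_gt_of_ne ht0 with ht1 | ht1
  · have ht2 : 0 < t' := ht.2.1 ht1
    rcases lt_or_gt_of_ne hs0 with hs1 | hs1
    · have hs2 : 0 < s' := hs.2.1 hs1
      rw [min_eq_right ht1.le, max_eq_left ht1.le, min_eq_right (by linarith : σ + s ≤ σ),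
        max_eq_left (by linarith : σ + s ≤ σ)] at h1
      rw [min_eq_right ht1.le, max_eq_left ht1.le, min_eq_left (by linarith : σ ≤ σ + s'),
        max_eq_right (by linarith : σ ≤ σ + s')] at h2
      rw [min_eq_left ht2.le, max_eq_right ht2.le, min_eq_right (by linarith : σ + s ≤ σ),
        max_eq_left (by linarith : σ + s ≤ σ)] at h3
      obtain ⟨⟨_, a2⟩, a3, a4⟩ := h1
      exfalso
      rcases lt_or_gt_of_ne hσ with hσ1 | hσ1
      · exact h2 ⟨⟨ht1, by linarith⟩, ⟨by linarith, by linarith⟩⟩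
      · exact h3 ⟨⟨ht2, by linarith⟩, ⟨by linarith, by linarith⟩⟩
    · have hs2 : s' < 0 := hs.1.1 hs1
      rw [min_eq_right ht1.le, max_eq_left ht1.le, min_eq_left (by linarith : σ ≤ σ + s),
        max_eq_right (by linarith : σ ≤ σ + s)] at h1
      rw [min_eq_right ht1.le, max_eq_left ht1.le, min_eq_right (by linarith : σ + s' ≤ σ),
        max_eq_left (by linarith : σ + s' ≤ σ)] at h2
      obtain ⟨⟨_, a2⟩, a3, a4⟩ := h1
      right
      refine ⟨a3, ht1, ?_, hs1, a2⟩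
      by_contra hcon
      push Not at hcon
      exact h2 ⟨⟨ht1, by linarith⟩, ⟨by linarith, by linarith⟩⟩
  · have ht2 : t' < 0 := ht.1.1 ht1
    rcases lt_or_gt_of_ne hs0 with hs1 | hs1
    · have hs2 : 0 < s' := hs.2.1 hs1
      rw [min_eq_left ht1.le, max_eq_right ht1.le, min_eq_right (by linarith : σ + s ≤ σ),
        max_eq_left (by linarith : σ + s ≤ σ)] at h1
      rw [min_eq_left ht1.le, max_eq_right ht1.le, min_eq_left (by linarith : σ ≤ σ + s'),
        max_eq_right (by linarith : σ ≤ σ + s')] at h2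
      obtain ⟨⟨_, a2⟩, a3, a4⟩ := h1
      left
      refine ⟨a2, ht1, ?_, hs1, a3⟩
      by_contra hcon
      push Not at hcon
      exact h2 ⟨⟨ht1, by linarith⟩, ⟨by linarith, by linarith⟩⟩
    · have hs2 : s' < 0 := hs.1.1 hs1
      rw [min_eq_left ht1.le, max_eq_right ht1.le, min_eq_left (by linarith : σ ≤ σ + s),
        max_eq_right (by linarith : σ ≤ σ + s)] at h1
      rw [min_eq_left ht1.le, max_eq_right ht1.le, min_eq_right (by linarith : σ + s' ≤ σ),
        max_eq_left (by linarith : σ + s' ≤ σ)] at h2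
      rw [min_eq_right ht2.le, max_eq_left ht2.le, min_eq_left (by linarith : σ ≤ σ + s),
        max_eq_right (by linarith : σ ≤ σ + s)] at h3
      obtain ⟨⟨_, a2⟩, a3, a4⟩ := h1
      exfalso
      rcases lt_or_gt_of_ne hσ with hσ1 | hσ1
      · exact h3 ⟨⟨ht2, by linarith⟩, ⟨by linarith, by linarith⟩⟩
      · exact h2 ⟨⟨ht1, by linarith⟩, ⟨by linarith, by linarith⟩⟩

/-- Three consecutive corners are not collinear. -/
lemma noncol (_hv : Indep v) {C₀ C₀' C₁ C₁' C₂ C₂' : PL ι} (h0 : Opp C₀ C₀') (h1 : Opp C₁ C₁')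
    (h2 : Opp C₂ C₂') (n1 : ¬ ov v C₁ C₀') (n2 : ¬ ov v C₁ C₂') (n3 : ¬ ov v C₁' C₀)
    (n4 : ¬ ov v C₁' C₂) (n5 : ¬ ov v C₀ C₂) (p0 : C₁.p ≠ C₀.p) (p2 : C₁.p ≠ C₂.p)
    {d e : ι} (hd : ovAt v d C₁ C₀) (he : ovAt v e C₁ C₂) : d ≠ e := by
  intro hde
  subst hde
  obtain ⟨σ, a1, b1, c1, d1⟩ := hd
  obtain ⟨τ, a2, b2, c2, d2⟩ := he
  have hσ : σ ≠ 0 := by
    rintro rfl
    exact p0 (by rw [c1]; simp)
  have hτ : τ ≠ 0 := by
    rintro rfl
    exact p2 (by rw [c2]; simp)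
  have nz : ∀ {P Q : PL ι}, Opp P Q → P.T d ≠ 0 → Q.T d ≠ 0 := by
    intro P Q h hP hQ
    rcases lt_or_gt_of_ne hP with h' | h'
    · exact absurd ((h.2 d).2.1 h') (by rw [hQ]; exact lt_irrefl _)
    · exact absurd ((h.2 d).1.1 h') (by rw [hQ]; exact lt_irrefl _)
  have s1 := step_aux hσ (h1.2 d) (h0.2 d) a1 b1 d1
    (fun h => n1 ⟨d, σ, a1, nz h0 b1, by rw [← h0.1]; exact c1, h⟩)
    (fun h => n3 ⟨d, σ, nz h1 a1, b1, by rw [← h1.1]; exact c1, h⟩)
  have s2 := step_aux hτ (h1.2 d) (h2.2 d) a2 b2 d2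
    (fun h => n2 ⟨d, τ, a2, nz h2 b2, by rw [← h2.1]; exact c2, h⟩)
    (fun h => n4 ⟨d, τ, nz h1 a1, b2, by rw [← h1.1]; exact c2, h⟩)
  apply n5
  refine ⟨d, τ - σ, b1, b2, ?_, ?_⟩
  · rw [c2, c1, sub_smul]; abel
  · rw [ovI_shift _ _ _ _ σ, zero_add, sub_add_cancel, ovI_iff]
    rcases s1 with ⟨g1, g2, g3, g4, g5⟩ | ⟨g1, g2, g3, g4, g5⟩ <;>
      rcases s2 with ⟨k1, k2, k3, k4, k5⟩ | ⟨k1, k2, k3, k4, k5⟩
    · rw [min_eq_right (by linarith : σ + C₀.T d ≤ σ), max_eq_left (by linarith : σ + C₀.T d ≤ σ),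
        min_eq_right (by linarith : τ + C₂.T d ≤ τ), max_eq_left (by linarith : τ + C₂.T d ≤ τ)]
      exact ⟨⟨by linarith, by linarith⟩, ⟨by linarith, by linarith⟩⟩
    · linarith
    · linarith
    · rw [min_eq_left (by linarith : σ ≤ σ + C₀.T d), max_eq_right (by linarith : σ ≤ σ + C₀.T d),
        min_eq_left (by linarith : τ ≤ τ + C₂.T d), max_eq_right (by linarith : τ ≤ τ + C₂.T d)]
      exact ⟨⟨by linarith, by linarith⟩, ⟨by linarith, by linarith⟩⟩

/-- The relevant part of the overlap pattern of the configuration. -/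
structure Pattern {V : Type*} (R : V → V → Prop) (g : Fin 4 → Fin 2 → Fin 18 → V) : Prop where
  opg : ∀ i k, OPG R (g i k)
  c1 : ∀ i, R (g i 0 0) (g i 1 0)
  c2 : ∀ i, R (g i 0 1) (g i 1 1)
  c3 : ∀ i, ¬ R (g i 0 0) (g i 1 1)
  c4 : ∀ i, ¬ R (g i 0 1) (g i 1 0)
  s1 : ∀ i, R (g i 0 0) (g (i + 1) 0 0)
  s2 : ∀ i, ¬ R (g i 0 0) (g (i + 1) 0 1)
  s3 : ∀ i, ¬ R (g i 0 1) (g (i + 1) 0 0)
  s4 : ∀ i, ¬ R (g i 0 1) (g (i + 1) 0 1)
  d1 : ∀ i, ¬ R (g i 0 0) (g (i + 2) 0 0)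
  d3 : ∀ i, R (g i 1 0) (g (i + 2) 1 0)
  d4 : ∀ i, ¬ R (g i 1 1) (g (i + 2) 1 1)

variable (v) in
/-- No non-degenerate complete quadrangle has all its six sides parallel to vectors of `v`. -/
def NoQuad : Prop := ∀ s01 s02 s03 s12 s13 s23 : ι,
  s01 ≠ s12 → s12 ≠ s23 → s23 ≠ s03 → s03 ≠ s01 → s02 ≠ s01 → s02 ≠ s12 → s02 ≠ s23 →
  s02 ≠ s03 → s13 ≠ s01 → s13 ≠ s12 → s13 ≠ s23 → s13 ≠ s03 →
  det (v s02) (v s12) * det (v s03) (v s23) * det (v s01) (v s13) ≠
    det (v s01) (v s12) * det (v s02) (v s23) * det (v s03) (v s13)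

lemma tri (hv : Indep v) {a b c : ι} {α β γ : ℝ} (hab : a ≠ b) (hα : α ≠ 0) (hβ : β ≠ 0)
    (h : α • v a + β • v b = γ • v c) : c ≠ a ∧ c ≠ b := by
  constructor
  · rintro rfl
    have : β • v b = (γ - α) • v c := by rw [sub_smul, ← h]; abel
    exact hβ (smul_cross hv hab.symm this).1
  · rintro rfl
    have : α • v a = (γ - β) • v c := by rw [sub_smul, ← h]; abel
    exact hα (smul_cross hv hab this).1

lemma tri_det {u w z : Pt} {α β γ : ℝ} (h : α • u + β • w = γ • z) :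
    γ * det z w = α * det u w := by
  have h1 : α * u.1 + β * w.1 = γ * z.1 := by simpa using congrArg Prod.fst h
  have h2 : α * u.2 + β * w.2 = γ * z.2 := by simpa using congrArg Prod.snd h
  unfold det
  linear_combination w.1 * h2 - w.2 * h1

/-- The rigidity theorem: a family of polylines with the given pattern produces a
non-degenerate complete quadrangle. -/
theorem Pattern.false (hv : Indep v) (hq : NoQuad v) {g : Fin 4 → Fin 2 → Fin 18 → PL ι}
    (h : Pattern (ov v) g) : False := by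
  have hC : ∀ i, Opp (g i 0 0) (g i 0 1) := fun i => (h.opg i 0).opp hv
  have hE : ∀ i, Opp (g i 1 0) (g i 1 1) := fun i => (h.opg i 1).opp hv
  have hp : ∀ i, (g i 0 0).p = (g i 1 0).p := fun i =>
    coinc hv (hC i) (hE i) (h.c1 i) (h.c2 i) (h.c3 i) (h.c4 i)
  have hs : ∀ i, (g i 0 0).p ≠ (g (i + 1) 0 0).p := fun i =>
    bend_ne hv (hC i) (hC (i + 1)) (h.s1 i) (h.s4 i)
  have hd : ∀ i, (g i 0 0).p ≠ (g (i + 2) 0 0).p := fun i => by
    rw [hp i, hp (i + 2)]
    exact bend_ne hv (hE i) (hE (i + 2)) (h.d3 i) (h.d4 i)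
  choose sd hsd using h.s1
  have hne : ∀ i, sd i ≠ sd (i + 1) := by
    intro i
    have e2 : i + 1 + 1 = i + 2 := by rw [add_assoc]; rfl
    refine noncol hv (hC i) (hC (i + 1)) (hC (i + 2)) ?_ ?_ ?_ ?_ (h.d1 i) (hs i).symm ?_
      (ovAt_symm (hsd i)) ?_
    · exact fun hh => h.s3 i (ov_symm hh)
    · have := h.s2 (i + 1); rwa [e2] at this
    · exact fun hh => h.s2 i (ov_symm hh)
    · have := h.s3 (i + 1); rwa [e2] at this
    · have := hs (i + 1); rwa [e2] at this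
    · have := hsd (i + 1); rwa [e2] at this
  have hst : ∀ i, ∃ τ : ℝ, τ ≠ 0 ∧ (g (i + 1) 0 0).p = (g i 0 0).p + τ • v (sd i) := by
    intro i
    obtain ⟨τ, _, _, h3, _⟩ := hsd i
    refine ⟨τ, ?_, h3⟩
    rintro rfl
    exact hs i (by rw [h3]; simp)
  choose st hst0 hst1 using hst
  have hdt : ∀ i, ∃ d, ∃ τ : ℝ, τ ≠ 0 ∧ (g (i + 2) 0 0).p = (g i 0 0).p + τ • v d := by
    intro i
    obtain ⟨d, τ, _, _, h3, _⟩ := h.d3 i
    rw [← hp i, ← hp (i + 2)] at h3
    refine ⟨d, τ, ?_, h3⟩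
    rintro rfl
    exact hd i (by rw [h3]; simp)
  choose dd dt hdt0 hdt1 using hdt
  have f01 := hst1 0
  have f12 := hst1 1
  have f23 := hst1 2
  have f30 := hst1 3
  have f02 := hdt1 0
  have f13 := hdt1 1
  have e1 : (0 : Fin 4) + 1 = 1 := rfl
  have e2 : (1 : Fin 4) + 1 = 2 := rfl
  have e3 : (2 : Fin 4) + 1 = 3 := rfl
  have e4 : (3 : Fin 4) + 1 = 0 := rfl
  have e5 : (0 : Fin 4) + 2 = 2 := rfl
  have e6 : (1 : Fin 4) + 2 = 3 := rfl
  rw [e1] at f01
  rw [e2] at f12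
  rw [e3] at f23
  rw [e4] at f30
  rw [e5] at f02
  rw [e6] at f13
  -- triangles
  have t012 : st 0 • v (sd 0) + st 1 • v (sd 1) = dt 0 • v (dd 0) := by
    rw [f01, add_assoc] at f12
    rw [f12] at f02
    exact add_left_cancel f02
  have t123 : st 1 • v (sd 1) + st 2 • v (sd 2) = dt 1 • v (dd 1) := by
    rw [f12, add_assoc] at f23
    rw [f23] at f13
    exact add_left_cancel f13
  have t023 : dt 0 • v (dd 0) + st 2 • v (sd 2) = (-st 3) • v (sd 3) := by
    rw [f23, f02] at f30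
    have h5 : dt 0 • v (dd 0) + st 2 • v (sd 2) + st 3 • v (sd 3) = 0 := by
      have := f30
      rw [add_assoc, add_assoc] at this
      have h6 := left_eq_add.1 this
      rw [add_assoc]; exact h6
    rw [neg_smul]
    exact eq_neg_of_add_eq_zero_left h5
  have t013 : st 0 • v (sd 0) + dt 1 • v (dd 1) = (-st 3) • v (sd 3) := by
    rw [f13, f01] at f30
    have h5 : st 0 • v (sd 0) + dt 1 • v (dd 1) + st 3 • v (sd 3) = 0 := by
      have := f30
      rw [add_assoc, add_assoc] at this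
      have h6 := left_eq_add.1 this
      rw [add_assoc]; exact h6
    rw [neg_smul]
    exact eq_neg_of_add_eq_zero_left h5
  have t230 : st 2 • v (sd 2) + st 3 • v (sd 3) = (-dt 0) • v (dd 0) := by
    have h5 : dt 0 • v (dd 0) + (st 2 • v (sd 2) + st 3 • v (sd 3)) = 0 := by
      rw [← add_assoc, t023]; simp
    rw [neg_smul]
    exact eq_neg_of_add_eq_zero_right h5
  have t301 : st 3 • v (sd 3) + st 0 • v (sd 0) = (-dt 1) • v (dd 1) := by
    have h5 : dt 1 • v (dd 1) + (st 3 • v (sd 3) + st 0 • v (sd 0)) = 0 := by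
      have h6 : dt 1 • v (dd 1) + (st 3 • v (sd 3) + st 0 • v (sd 0)) =
        (st 0 • v (sd 0) + dt 1 • v (dd 1)) + st 3 • v (sd 3) := by abel
      rw [h6, t013]; simp
    rw [neg_smul]
    exact eq_neg_of_add_eq_zero_right h5
  have n01 : sd 0 ≠ sd 1 := hne 0
  have n12 : sd 1 ≠ sd 2 := hne 1
  have n23 : sd 2 ≠ sd 3 := hne 2
  have n30 : sd 3 ≠ sd 0 := hne 3
  have m1 := tri hv n01 (hst0 0) (hst0 1) t012
  have m2 := tri hv n12 (hst0 1) (hst0 2) t123
  have m3 := tri hv n23 (hst0 2) (hst0 3) t230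
  have m4 := tri hv n30 (hst0 3) (hst0 0) t301
  refine hq (sd 0) (dd 0) (sd 3) (sd 1) (dd 1) (sd 2) n01 n12 n23 n30 m1.1 m1.2 m3.1 m3.2
    m4.2 m2.1 m2.2 m4.1 ?_
  have r1 := tri_det t012
  have r2 := tri_det t023
  have r3 := tri_det t013
  have hne0 : dt 0 * (-st 3) * st 0 ≠ 0 :=
    mul_ne_zero (mul_ne_zero (hdt0 0) (neg_ne_zero.2 (hst0 3))) (hst0 0)
  apply mul_left_cancel₀ hne0
  calc dt 0 * (-st 3) * st 0 * (det (v (dd 0)) (v (sd 1)) * det (v (sd 3)) (v (sd 2)) *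
        det (v (sd 0)) (v (dd 1)))
      = (dt 0 * det (v (dd 0)) (v (sd 1))) * ((-st 3) * det (v (sd 3)) (v (sd 2))) *
        (st 0 * det (v (sd 0)) (v (dd 1))) := by ring
    _ = (st 0 * det (v (sd 0)) (v (sd 1))) * (dt 0 * det (v (dd 0)) (v (sd 2))) *
        ((-st 3) * det (v (sd 3)) (v (dd 1))) := by rw [r1, r2, r3]
    _ = _ := by ring

end

end Pool.Agent.H62.Bend
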