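import Mathlib
import Pool.Agent.H62.Bend1

/-!
Polylines with prescribed slopes, EPG(D)-representations and bend numbers; the passage between
polylines with at most one bend and the structures `PL` of `Bend1`.
-/

set_option autoImplicit false

namespace Pool.Agent.H62.Bend

open Set

section
variable {ι : Type*} {v : ι → Pt}

/-- The arm with base `p`, direction `w` and signed length `t`. -/
def arm (p w : Pt) (t : ℝ) : Set Pt := {z | ∃ r ∈ uIcc 0 t, z = p + r • w}

lemma segment_arm (p w : Pt) (t : ℝ) : segment ℝ p (p + t • w) = arm p w t := by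
  rw [segment_eq_image']
  ext z
  simp only [mem_image, arm, mem_ofPred_eq, add_sub_cancel_left, smul_smul]
  constructor
  · rintro ⟨θ, hθ, rfl⟩
    refine ⟨θ * t, ?_, rfl⟩
    rw [mem_uIcc]
    rcases le_total 0 t with h | h
    · left; exact ⟨mul_nonneg hθ.1 h, by nlinarith [hθ.2]⟩
    · right; exact ⟨by nlinarith [hθ.2], mul_nonpos_of_nonneg_of_nonpos hθ.1 h⟩
  · rintro ⟨r, hr, rfl⟩
    by_cases ht : t = 0
    · subst ht
      have : r = 0 := by simpa using hr
      exact ⟨0, ⟨le_rfl, zero_le_one⟩, by simp [this]⟩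
    · refine ⟨r / t, ?_, by rw [div_mul_cancel₀ r ht]⟩
      rw [mem_uIcc] at hr
      rcases hr with ⟨h1, h2⟩ | ⟨h1, h2⟩
      · have : 0 < t := lt_of_le_of_ne (h1.trans h2) (Ne.symm ht)
        exact ⟨div_nonneg h1 this.le, (div_le_one this).2 h2⟩
      · have : t < 0 := lt_of_le_of_ne (h1.trans h2) ht
        exact ⟨div_nonneg_of_nonpos h2 this.le, (div_le_one_of_neg this).2 h1⟩

/-- The set of points of a `PL`. -/
def PL.pts (v : ι → Pt) (P : PL ι) : Set Pt := arm P.p (v P.a) (P.T P.a) ∪ arm P.p (v P.b) (P.T P.b)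

lemma PL.arm_subset {P : PL ι} {d : ι} (hd : P.T d ≠ 0) : arm P.p (v d) (P.T d) ⊆ P.pts v := by
  rcases P.hT d hd with h | h
  · rw [h]; exact subset_union_left
  · rw [h]; exact subset_union_right

lemma ovI_of_two {t τ s r r' : ℝ} (hne : r < r') (h1 : r ∈ uIcc 0 t) (h2 : r' ∈ uIcc 0 t)
    (h3 : r ∈ uIcc τ (τ + s)) (h4 : r' ∈ uIcc τ (τ + s)) : ovI 0 t τ s := by
  unfold ovI
  rw [zero_add]
  rw [uIcc, mem_Icc] at h1 h2 h3 h4
  have e1 : max (min 0 t) (min τ (τ + s)) ≤ r := max_le h1.1 h3.1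
  have e2 : r' ≤ min (max 0 t) (max τ (τ + s)) := le_min h2.2 h4.2
  exact lt_of_le_of_lt e1 (lt_of_lt_of_le hne e2)

lemma arm_inter (hv : Indep v) {P Q : PL ι} {d e : ι} (hd : P.T d ≠ 0) (he : Q.T e ≠ 0)
    (h : ¬ (arm P.p (v d) (P.T d) ∩ arm Q.p (v e) (Q.T e)).Subsingleton) :
    d = e ∧ ovAt v d P Q := by
  rw [not_subsingleton_iff] at h
  obtain ⟨z, ⟨⟨r, hr, hz1⟩, ⟨s, hs, hz2⟩⟩, z', ⟨⟨r', hr', hz1'⟩, ⟨s', hs', hz2'⟩⟩, hzz⟩ := h
  have e1 : z - z' = (r - r') • v d := by rw [hz1, hz1', sub_smul]; abel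
  have e2 : z - z' = (s - s') • v e := by rw [hz2, hz2', sub_smul]; abel
  have hde : d = e := by
    by_contra hde
    have := (smul_cross hv hde (e1.symm.trans e2)).1
    rw [this, zero_smul] at e1
    exact hzz (sub_eq_zero.1 e1)
  subst hde
  refine ⟨rfl, r - s, hd, he, ?_, ?_⟩
  · have : P.p + r • v d = Q.p + s • v d := hz1.symm.trans hz2
    have h2 : Q.p = P.p + r • v d - s • v d := by rw [this]; simp
    rw [h2, sub_smul]; abel
  · have h5 : r - r' = s - s' := smul_inj hv (e1.symm.trans e2)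
    have hrr : r ≠ r' := by
      rintro rfl
      exact hzz (hz1.trans hz1'.symm)
    have m1 : r ∈ uIcc (r - s) (r - s + Q.T d) := by
      rw [mem_uIcc] at hs ⊢
      rcases hs with ⟨h1, h2⟩ | ⟨h1, h2⟩
      · left; constructor <;> linarith
      · right; constructor <;> linarith
    have m2 : r' ∈ uIcc (r - s) (r - s + Q.T d) := by
      rw [mem_uIcc] at hs' ⊢
      rcases hs' with ⟨h1, h2⟩ | ⟨h1, h2⟩
      · left; constructor <;> linarith
      · right; constructor <;> linarith
    rcases lt_or_gt_of_ne hrr with h | h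
    · exact ovI_of_two h hr hr' m1 m2
    · exact ovI_of_two h hr' hr m2 m1

/-- The point sets of two polylines meet in infinitely many points iff the polylines overlap. -/
lemma pts_inter (hv : Indep v) (P Q : PL ι) : (P.pts v ∩ Q.pts v).Infinite ↔ ov v P Q := by
  constructor
  · intro h
    have h1 : (P.pts v ∩ Q.pts v) =
        (arm P.p (v P.a) (P.T P.a) ∩ arm Q.p (v Q.a) (Q.T Q.a)) ∪
        (arm P.p (v P.a) (P.T P.a) ∩ arm Q.p (v Q.b) (Q.T Q.b)) ∪
        ((arm P.p (v P.b) (P.T P.b) ∩ arm Q.p (v Q.a) (Q.T Q.a)) ∪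
        (arm P.p (v P.b) (P.T P.b) ∩ arm Q.p (v Q.b) (Q.T Q.b))) := by
      unfold PL.pts
      rw [union_inter_distrib_right, inter_union_distrib_left, inter_union_distrib_left]
    rw [h1, infinite_union, infinite_union, infinite_union] at h
    have h2 : ∀ d e, P.T d ≠ 0 → Q.T e ≠ 0 →
        (arm P.p (v d) (P.T d) ∩ arm Q.p (v e) (Q.T e)).Infinite → ov v P Q := by
      intro d e hd he hinf
      exact ⟨d, (arm_inter hv hd he (fun hs => hinf hs.finite)).2⟩
    rcases h with (h | h) | (h | h)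
    · exact h2 _ _ P.ha Q.ha h
    · exact h2 _ _ P.ha Q.hb h
    · exact h2 _ _ P.hb Q.ha h
    · exact h2 _ _ P.hb Q.hb h
  · rintro ⟨d, τ, h1, h2, h3, h4⟩
    apply Infinite.mono (s := (fun r : ℝ => P.p + r • v d) ''
      Ioo (max (min 0 (0 + P.T d)) (min τ (τ + Q.T d))) (min (max 0 (0 + P.T d)) (max τ (τ + Q.T d))))
    · rintro _ ⟨r, hr, rfl⟩
      rw [mem_Ioo, max_lt_iff, lt_min_iff] at hr
      obtain ⟨⟨a1, a2⟩, a3, a4⟩ := hr
      rw [zero_add] at a1 a3
      refine ⟨PL.arm_subset h1 ⟨r, ⟨a1.le, a3.le⟩, rfl⟩, PL.arm_subset h2 ⟨r - τ, ?_, ?_⟩⟩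
      · constructor
        · have : min 0 (Q.T d) = min τ (τ + Q.T d) - τ := by
            rw [← min_sub_sub_right]; simp
          rw [this]; linarith
        · have : max 0 (Q.T d) = max τ (τ + Q.T d) - τ := by
            rw [← max_sub_sub_right]; simp
          rw [this]; linarith
      · rw [h3, sub_smul]; abel_nf
    · apply Infinite.image
      · intro r _ r' _ hrr
        exact smul_inj hv (add_left_cancel hrr)
      · exact Ioo_infinite h4

lemma trace_zero (c : ℕ → Pt) : trace 0 c = segment ℝ (c 0) (c 1) := by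
  simp [trace]

lemma trace_one (c : ℕ → Pt) : trace 1 c = segment ℝ (c 0) (c 1) ∪ segment ℝ (c 1) (c 2) := by
  ext z
  simp only [trace, mem_iUnion, exists_prop, mem_union]
  constructor
  · rintro ⟨i, hi, hz⟩
    interval_cases i
    · left; exact hz
    · right; exact hz
  · rintro (hz | hz)
    · exact ⟨0, by norm_num, hz⟩
    · exact ⟨1, le_rfl, hz⟩

/-- A polyline with at most one bend is given by a `PL`. -/
lemma exists_PL {D : Finset (Submodule ℝ Pt)}
    (hD : ∀ L ∈ D, ∃ i, L = Submodule.span ℝ {v i}) {m : ℕ} (hm : m ≤ 1) {c : ℕ → Pt}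
    (hc : IsPolyline D m c) : ∃ P : PL ι, P.pts v = trace m c := by
  classical
  have key : ∀ i ≤ m, ∃ (d : ι) (t : ℝ), t ≠ 0 ∧ c (i + 1) = c i + t • v d := by
    intro i hi
    obtain ⟨L, hL, hcL⟩ := hc.slope i hi
    obtain ⟨d, rfl⟩ := hD L hL
    rw [Submodule.mem_span_singleton] at hcL
    obtain ⟨t, ht⟩ := hcL
    refine ⟨d, t, ?_, ?_⟩
    · rintro rfl
      rw [zero_smul] at ht
      exact hc.ne i hi (sub_eq_zero.1 ht.symm).symm
    · rw [ht]; abel
  rcases Nat.le_one_iff_eq_zero_or_eq_one.1 hm with rfl | rfl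
  · obtain ⟨d, t, ht, h1⟩ := key 0 le_rfl
    refine ⟨⟨c 0, fun e => if e = d then t else 0, d, d, by simpa using ht, by simpa using ht,
      fun e he => ?_⟩, ?_⟩
    · left
      by_contra hne
      simp [hne] at he
    · rw [trace_zero]
      simp only [PL.pts, if_true, union_self]
      rw [← segment_arm, h1]
  · obtain ⟨d, t, ht, h1⟩ := key 0 (by norm_num)
    obtain ⟨e, s, hs, h2⟩ := key 1 le_rfl
    have hde : d ≠ e := by
      rintro rfl
      apply hc.bend 0 (by norm_num)
      rw [collinear_iff_of_mem (p₀ := c 0) (by simp)]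
      refine ⟨v d, ?_⟩
      intro q hq
      simp only [mem_insert_iff, mem_singleton_iff] at hq
      rcases hq with rfl | rfl | rfl
      · exact ⟨0, by simp⟩
      · exact ⟨t, by rw [h1, vadd_eq_add]; abel⟩
      · exact ⟨t + s, by
          have h3 : c (0 + 2) = c (1 + 1) := rfl
          rw [h3, h2, h1, vadd_eq_add, add_smul]; abel⟩
    refine ⟨⟨c 1, fun f => if f = d then -t else if f = e then s else 0, d, e,
      by simpa using ht, by simpa [hde.symm] using hs, fun f hf => ?_⟩, ?_⟩
    · by_contra hne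
      push Not at hne
      simp [hne.1, hne.2] at hf
    · rw [trace_one]
      simp only [PL.pts, if_true, if_neg hde.symm]
      rw [← segment_arm, ← segment_arm]
      rw [zero_add] at h1
      have h3 : c 1 + -t • v d = c 0 := by rw [h1, neg_smul]; abel
      have h4 : c 1 + s • v e = c 2 := h2.symm
      rw [h3, h4, segment_symm ℝ (c 1) (c 0)]

/-- A `PL` with two different arms is a polyline with exactly one bend. -/
lemma exists_polyline (hv : Indep v) {D : Finset (Submodule ℝ Pt)} (P : PL ι) (hab : P.a ≠ P.b)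
    (h1 : Submodule.span ℝ {v P.a} ∈ D) (h2 : Submodule.span ℝ {v P.b} ∈ D) :
    ∃ c, IsPolyline D 1 c ∧ P.pts v = trace 1 c := by
  refine ⟨fun n => if n = 0 then P.p + P.T P.a • v P.a else if n = 1 then P.p
    else P.p + P.T P.b • v P.b, ⟨?_, ?_, ?_⟩, ?_⟩
  · intro i hi
    interval_cases i
    · simp only [if_true, zero_add, one_ne_zero, if_false]
      intro h
      have : P.T P.a • v P.a = 0 := by simpa using h
      rcases smul_eq_zero.1 this with h | h
      · exact P.ha h
      · exact hv.1 _ h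
    · simp only [if_true, one_ne_zero, if_false]
      intro h
      have : P.T P.b • v P.b = 0 := by simpa using h
      rcases smul_eq_zero.1 this with h | h
      · exact P.hb h
      · exact hv.1 _ h
  · intro i hi
    interval_cases i
    · refine ⟨_, h1, ?_⟩
      simp only [if_true, zero_add, one_ne_zero, if_false]
      rw [Submodule.mem_span_singleton]
      exact ⟨-P.T P.a, by rw [neg_smul]; abel⟩
    · refine ⟨_, h2, ?_⟩
      simp only [if_true, one_ne_zero, if_false]
      rw [Submodule.mem_span_singleton]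
      refine ⟨P.T P.b, ?_⟩
      simp
  · intro i hi
    interval_cases i
    simp only [if_true, zero_add, one_ne_zero, if_false]
    rw [collinear_iff_of_mem (p₀ := P.p) (by simp)]
    rintro ⟨w, hw⟩
    obtain ⟨r, hr⟩ := hw (P.p + P.T P.a • v P.a) (by simp)
    obtain ⟨s, hs⟩ := hw (P.p + P.T P.b • v P.b) (by simp)
    rw [vadd_eq_add, add_comm (r • w)] at hr
    rw [vadd_eq_add, add_comm (s • w)] at hs
    have hr' := add_left_cancel hr
    have hs' := add_left_cancel hs
    have h3 : (s * P.T P.a) • v P.a = (r * P.T P.b) • v P.b := by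
      rw [mul_smul, mul_smul, hr', hs', smul_smul, smul_smul, mul_comm]
    have h4 := smul_cross hv hab h3
    have hs0 : s = 0 := by
      rcases mul_eq_zero.1 h4.1 with h | h
      · exact h
      · exact absurd h P.ha
    rw [hs0, zero_smul] at hs'
    rcases smul_eq_zero.1 hs' with h | h
    · exact P.hb h
    · exact hv.1 _ h
  · rw [trace_one]
    simp only [if_true, one_ne_zero, if_false]
    rw [segment_symm ℝ _ P.p, segment_arm]
    unfold PL.pts
    congr 1
    simp only [OfNat.ofNat_ne_zero, OfNat.ofNat_ne_one, if_false]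
    rw [segment_arm]

end

end Pool.Agent.H62.Bend
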