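import Mathlib
import Pool.Agent.H62.Bend2

/-!
The explicit configuration of 144 polylines with one bend and slopes `0, ∞, 1, -1`, and its graph.
-/

set_option autoImplicit false

namespace Pool.Agent.H62.Bend

open Set

/-- A polyline with one bend at the integer point `(x, y)` and with arms of signed lengths `s`, `t`
in the directions number `a`, `b`. The directions `0, 1, 2, 3` are `(1,0), (0,1), (1,1), (-1,1)`. -/
structure Z where
  x : ℤ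
  y : ℤ
  a : Fin 4
  b : Fin 4
  s : ℤ
  t : ℤ

/-- The four directions. -/
def v0 : Fin 4 → Pt := ![(1, 0), (0, 1), (1, 1), (-1, 1)]

/-- An invariant of the lines of direction `d`. -/
def inv (d : Fin 4) (x y : ℤ) : ℤ := if d = 0 then y else if d = 1 then x else
  if d = 2 then x - y else x + y

/-- A coordinate on the lines of direction `d`. -/
def crd (d : Fin 4) (x y : ℤ) : ℤ := if d = 0 then x else if d = 1 then y else
  if d = 2 then x else y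

/-- Overlap of intervals. -/
def ovIZ (a t b s : ℤ) : Prop :=
  (a < b ∨ a < b + s ∨ a + t < b ∨ a + t < b + s) ∧
    (b < a ∨ b < a + t ∨ b + s < a ∨ b + s < a + t)

instance (a t b s : ℤ) : Decidable (ovIZ a t b s) := by unfold ovIZ; infer_instance

/-- Overlap of arms. -/
def ovA (x y : ℤ) (d : Fin 4) (t : ℤ) (x' y' : ℤ) (d' : Fin 4) (t' : ℤ) : Prop :=
  d = d' ∧ inv d x y = inv d x' y' ∧ ovIZ (crd d x y) t (crd d x' y') t'

instance (x y : ℤ) (d : Fin 4) (t : ℤ) (x' y' : ℤ) (d' : Fin 4) (t' : ℤ) :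
    Decidable (ovA x y d t x' y' d' t') := by unfold ovA; infer_instance

/-- Overlap of integer polylines. -/
def ovZ (P Q : Z) : Prop :=
  ovA P.x P.y P.a P.s Q.x Q.y Q.a Q.s ∨ ovA P.x P.y P.a P.s Q.x Q.y Q.b Q.t ∨
  ovA P.x P.y P.b P.t Q.x Q.y Q.a Q.s ∨ ovA P.x P.y P.b P.t Q.x Q.y Q.b Q.t

instance (P Q : Z) : Decidable (ovZ P Q) := by unfold ovZ; infer_instance

/-- The eighteen polylines of the gadget of the first kind at the corner `(0, 0)`. -/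
def baseC : Fin 18 → Z := ![
  ⟨0, 0, 0, 1, 6, 6⟩,
  ⟨0, 0, 0, 1, -1, -1⟩,
  ⟨16, 0, 0, 3, 1, 1⟩,
  ⟨16, 0, 0, 3, -1, -1⟩,
  ⟨0, 8, 1, 2, 1, 1⟩,
  ⟨0, 8, 1, 2, -1, -1⟩,
  ⟨4, 12, 2, 3, 1, 1⟩,
  ⟨4, 12, 2, 3, -1, -1⟩,
  ⟨24, 0, 0, 3, 1, 1⟩,
  ⟨24, 0, 0, 3, -1, -1⟩,
  ⟨0, 12, 1, 2, 1, 1⟩,
  ⟨0, 12, 1, 2, -1, -1⟩,
  ⟨6, 18, 2, 3, 1, 1⟩,
  ⟨6, 18, 2, 3, -1, -1⟩,
  ⟨-8, 0, 0, 2, 28, 16⟩,
  ⟨0, 16, 1, 3, -20, -20⟩,
  ⟨-12, 0, 0, 2, 42, 24⟩,
  ⟨0, 24, 1, 3, -30, -30⟩]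

/-- The eighteen polylines of the gadget of the second kind at the corner `(0, 0)`. -/
def baseE : Fin 18 → Z := ![
  ⟨0, 0, 0, 2, 1, 6⟩,
  ⟨0, 0, 0, 2, -1, -1⟩,
  ⟨-16, 0, 0, 1, 1, 1⟩,
  ⟨-16, 0, 0, 1, -1, -1⟩,
  ⟨8, 8, 2, 3, 1, 1⟩,
  ⟨8, 8, 2, 3, -1, -1⟩,
  ⟨-16, 32, 1, 3, 1, 1⟩,
  ⟨-16, 32, 1, 3, -1, -1⟩,
  ⟨-24, 0, 0, 1, 1, 1⟩,
  ⟨-24, 0, 0, 1, -1, -1⟩,
  ⟨12, 12, 2, 3, 1, 1⟩,
  ⟨12, 12, 2, 3, -1, -1⟩,
  ⟨-24, 48, 1, 3, 1, 1⟩,
  ⟨-24, 48, 1, 3, -1, -1⟩,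
  ⟨16, 0, 0, 3, -40, 36⟩,
  ⟨-16, -16, 1, 2, 52, 28⟩,
  ⟨24, 0, 0, 3, -60, 54⟩,
  ⟨-24, -24, 1, 2, 78, 42⟩]

/-- The image direction of the direction `d` under the rotation by a right angle. -/
def rd (d : Fin 4) : Fin 4 := if d = 0 then 1 else if d = 1 then 0 else if d = 2 then 3 else 2

/-- The change of sign in the rotation by a right angle. -/
def rs (d : Fin 4) (t : ℤ) : ℤ := if d = 0 ∨ d = 2 then t else -t

/-- The rotation by a right angle about the centre `(5, 5)`. -/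
def rot (P : Z) : Z := ⟨10 - P.y, P.x, rd P.a, rd P.b, rs P.a P.s, rs P.b P.t⟩

/-- The vertex set. -/
abbrev V := Fin 4 × Fin 2 × Fin 18

/-- The configuration. -/
def conf (x : V) : Z := rot^[x.1.1] (if x.2.1 = 0 then baseC x.2.2 else baseE x.2.2)

lemma conf_ok : ∀ x : V, (conf x).a ≠ (conf x).b ∧ (conf x).s ≠ 0 ∧ (conf x).t ≠ 0 := by
  decide +kernel

lemma ovIZ_comm {a t b s : ℤ} (h : ovIZ a t b s) : ovIZ b s a t := by
  unfold ovIZ at *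
  omega

lemma ovA_comm {x y : ℤ} {d : Fin 4} {t : ℤ} {x' y' : ℤ} {d' : Fin 4} {t' : ℤ}
    (h : ovA x y d t x' y' d' t') : ovA x' y' d' t' x y d t := by
  obtain ⟨rfl, h2, h3⟩ := h
  exact ⟨rfl, h2.symm, ovIZ_comm h3⟩

lemma ovZ_comm {P Q : Z} (h : ovZ P Q) : ovZ Q P := by
  rcases h with h | h | h | h
  · exact Or.inl (ovA_comm h)
  · exact Or.inr (Or.inr (Or.inl (ovA_comm h)))
  · exact Or.inr (Or.inl (ovA_comm h))
  · exact Or.inr (Or.inr (Or.inr (ovA_comm h)))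

/-- The graph with 144 vertices. -/
def G0 : SimpleGraph V where
  Adj x y := x ≠ y ∧ ovZ (conf x) (conf y)
  symm := ⟨fun _ _ h => ⟨h.1.symm, ovZ_comm h.2⟩⟩
  loopless := ⟨fun _ h => h.1 rfl⟩

/-! ### The facts about the configuration -/

lemma fact_AB1 : ∀ (i : Fin 4) (k : Fin 2), ¬ ovZ (conf (i, k, 14)) (conf (i, k, 15)) := by
  decide +kernel
lemma fact_AB2 : ∀ (i : Fin 4) (k : Fin 2), ¬ ovZ (conf (i, k, 16)) (conf (i, k, 17)) := by
  decide +kernel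
lemma fact_A1 : ∀ (i : Fin 4) (k : Fin 2) (j : Fin 8),
    idx1 j ≠ 14 ∧ ovZ (conf (i, k, idx1 j)) (conf (i, k, 14)) := by
  decide +kernel
lemma fact_B1 : ∀ (i : Fin 4) (k : Fin 2) (j : Fin 8),
    idx1 j ≠ 15 ∧ ovZ (conf (i, k, idx1 j)) (conf (i, k, 15)) := by
  decide +kernel
lemma fact_A2 : ∀ (i : Fin 4) (k : Fin 2) (j : Fin 8),
    idx2 j ≠ 16 ∧ ovZ (conf (i, k, idx2 j)) (conf (i, k, 16)) := by
  decide +kernel
lemma fact_B2 : ∀ (i : Fin 4) (k : Fin 2) (j : Fin 8),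
    idx2 j ≠ 17 ∧ ovZ (conf (i, k, idx2 j)) (conf (i, k, 17)) := by
  decide +kernel
lemma fact_C1 : ∀ (i : Fin 4) (k : Fin 2) (j l : Fin 8), j ≠ l →
    idx1 j ≠ idx1 l ∧ ¬ ovZ (conf (i, k, idx1 j)) (conf (i, k, idx1 l)) := by
  decide +kernel
lemma fact_C2 : ∀ (i : Fin 4) (k : Fin 2) (j l : Fin 8), j ≠ l →
    idx2 j ≠ idx2 l ∧ ¬ ovZ (conf (i, k, idx2 j)) (conf (i, k, idx2 l)) := by
  decide +kernel
lemma fact_C3 : ∀ (i : Fin 4) (k : Fin 2) (j l : Fin 8), j ≠ 0 → j ≠ 1 → l ≠ 0 → l ≠ 1 →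
    idx1 j ≠ idx2 l ∧ ¬ ovZ (conf (i, k, idx1 j)) (conf (i, k, idx2 l)) := by
  decide +kernel
lemma fact_c : ∀ i : Fin 4, ovZ (conf (i, 0, 0)) (conf (i, 1, 0)) ∧
    ovZ (conf (i, 0, 1)) (conf (i, 1, 1)) ∧ ¬ ovZ (conf (i, 0, 0)) (conf (i, 1, 1)) ∧
    ¬ ovZ (conf (i, 0, 1)) (conf (i, 1, 0)) := by
  decide +kernel
lemma fact_s : ∀ i : Fin 4, i ≠ i + 1 ∧ ovZ (conf (i, 0, 0)) (conf (i + 1, 0, 0)) ∧
    ¬ ovZ (conf (i, 0, 0)) (conf (i + 1, 0, 1)) ∧ ¬ ovZ (conf (i, 0, 1)) (conf (i + 1, 0, 0)) ∧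
    ¬ ovZ (conf (i, 0, 1)) (conf (i + 1, 0, 1)) := by
  decide +kernel
lemma fact_d : ∀ i : Fin 4, i ≠ i + 2 ∧ ¬ ovZ (conf (i, 0, 0)) (conf (i + 2, 0, 0)) ∧
    ovZ (conf (i, 1, 0)) (conf (i + 2, 1, 0)) ∧ ¬ ovZ (conf (i, 1, 1)) (conf (i + 2, 1, 1)) := by
  decide +kernel

/-- Every family of objects whose relation `S` is the adjacency of `G0` has the pattern. -/
lemma pattern_of {W : Type*} {S : W → W → Prop} (f : V → W)
    (h : ∀ x y, x ≠ y → (G0.Adj x y ↔ S (f x) (f y))) : Pattern S (fun i k j => f (i, k, j)) := by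
  have pos : ∀ x y, x ≠ y → ovZ (conf x) (conf y) → S (f x) (f y) :=
    fun x y hne ho => (h x y hne).1 ⟨hne, ho⟩
  have neg : ∀ x y, x ≠ y → ¬ ovZ (conf x) (conf y) → ¬ S (f x) (f y) :=
    fun x y hne ho hs => ho ((h x y hne).2 hs).2
  have ne3 : ∀ {i : Fin 4} {k : Fin 2} {j l : Fin 18}, j ≠ l → ((i, k, j) : V) ≠ (i, k, l) := by
    intro i k j l hjl h
    simp only [Prod.mk.injEq, true_and] at h
    exact hjl h
  have ne1 : ∀ {i i' : Fin 4} {k k' : Fin 2} {j l : Fin 18}, i ≠ i' →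
      ((i, k, j) : V) ≠ (i', k', l) := by
    intro i i' k k' j l hi h
    simp only [Prod.mk.injEq] at h
    exact hi h.1
  have ne2 : ∀ {i i' : Fin 4} {k k' : Fin 2} {j l : Fin 18}, k ≠ k' →
      ((i, k, j) : V) ≠ (i', k', l) := by
    intro i i' k k' j l hi h
    simp only [Prod.mk.injEq] at h
    exact hi h.2.1
  have h01 : (0 : Fin 2) ≠ 1 := by decide
  exact
  { opg := fun i k =>
      { k1 :=
          { hAB := neg _ _ (ne3 (by decide)) (fact_AB1 i k)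
            hA := fun j => pos _ _ (ne3 (fact_A1 i k j).1) (fact_A1 i k j).2
            hB := fun j => pos _ _ (ne3 (fact_B1 i k j).1) (fact_B1 i k j).2
            hC := fun j l hjl => neg _ _ (ne3 (fact_C1 i k j l hjl).1) (fact_C1 i k j l hjl).2 }
        k2 :=
          { hAB := neg _ _ (ne3 (by decide)) (fact_AB2 i k)
            hA := fun j => pos _ _ (ne3 (fact_A2 i k j).1) (fact_A2 i k j).2
            hB := fun j => pos _ _ (ne3 (fact_B2 i k j).1) (fact_B2 i k j).2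
            hC := fun j l hjl => neg _ _ (ne3 (fact_C2 i k j l hjl).1) (fact_C2 i k j l hjl).2 }
        k3 := fun j l h1 h2 h3 h4 => neg _ _ (ne3 (fact_C3 i k j l h1 h2 h3 h4).1)
          (fact_C3 i k j l h1 h2 h3 h4).2 }
    c1 := fun i => pos _ _ (ne2 h01) (fact_c i).1
    c2 := fun i => pos _ _ (ne2 h01) (fact_c i).2.1
    c3 := fun i => neg _ _ (ne2 h01) (fact_c i).2.2.1
    c4 := fun i => neg _ _ (ne2 h01) (fact_c i).2.2.2
    s1 := fun i => pos _ _ (ne1 (fact_s i).1) (fact_s i).2.1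
    s2 := fun i => neg _ _ (ne1 (fact_s i).1) (fact_s i).2.2.1
    s3 := fun i => neg _ _ (ne1 (fact_s i).1) (fact_s i).2.2.2.1
    s4 := fun i => neg _ _ (ne1 (fact_s i).1) (fact_s i).2.2.2.2
    d1 := fun i => neg _ _ (ne1 (fact_d i).1) (fact_d i).2.1
    d3 := fun i => pos _ _ (ne1 (fact_d i).1) (fact_d i).2.2.1
    d4 := fun i => neg _ _ (ne1 (fact_d i).1) (fact_d i).2.2.2 }

/-- **Lower bound.** If no non-degenerate complete quadrangle has sides parallel to the lines of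
`D`, then `G0` has no EPG(D)-representation with at most one bend. -/
theorem not_hasRep {ι : Type*} {v : ι → Pt} (hv : Indep v) (hq : NoQuad v)
    {D : Finset (Submodule ℝ Pt)} (hD : ∀ L ∈ D, ∃ i, L = Submodule.span ℝ {v i}) :
    ¬ HasRep D 1 G0 := by
  rintro ⟨P, hP, hadj⟩
  have hPL : ∀ x, ∃ Q : PL ι, Q.pts v = P x := by
    intro x
    obtain ⟨m, hm, c, hc, hx⟩ := hP x
    obtain ⟨Q, hQ⟩ := exists_PL hD hm hc
    exact ⟨Q, hQ.trans hx.symm⟩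
  choose Q hQ using hPL
  have h : ∀ x y, x ≠ y → (G0.Adj x y ↔ ov v (Q x) (Q y)) := by
    intro x y hxy
    rw [hadj x y hxy, ← pts_inter hv, hQ, hQ]
  exact (pattern_of Q h).false hv hq

/-! ### The representation with the slopes `0, ∞, 1, -1` -/

lemma indep_v0 : Indep v0 := by
  constructor
  · intro d
    fin_cases d <;> simp [v0]
  · intro d e hde
    fin_cases d <;> fin_cases e <;> first | exact absurd rfl hde | (simp [v0, det]; try norm_num)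

/-- The real polyline of an integer polyline. -/
noncomputable def toPL (z : Z) (h : z.a ≠ z.b ∧ z.s ≠ 0 ∧ z.t ≠ 0) : PL (Fin 4) where
  p := ((z.x : ℝ), (z.y : ℝ))
  T := fun d => if d = z.a then (z.s : ℝ) else if d = z.b then (z.t : ℝ) else 0
  a := z.a
  b := z.b
  ha := by simpa using h.2.1
  hb := by simpa [h.1.symm] using h.2.2
  hT := fun c hc => by
    by_contra hne
    push Not at hne
    simp [hne.1, hne.2] at hc

lemma ovI_ovIZ {a t b s : ℤ} (ht : t ≠ 0) (hs : s ≠ 0) :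
    ovI (a : ℝ) t b s ↔ ovIZ a t b s := by
  rw [ovI_iff]
  have n1 : min (a : ℝ) (a + t) < max (a : ℝ) (a + t) := by
    have : (t : ℝ) ≠ 0 := by exact_mod_cast ht
    rcases lt_or_gt_of_ne this with h | h
    · exact lt_of_le_of_lt (min_le_right _ _) (lt_of_lt_of_le (by linarith) (le_max_left _ _))
    · exact lt_of_le_of_lt (min_le_left _ _) (lt_of_lt_of_le (by linarith) (le_max_right _ _))
  have n2 : min (b : ℝ) (b + s) < max (b : ℝ) (b + s) := by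
    have : (s : ℝ) ≠ 0 := by exact_mod_cast hs
    rcases lt_or_gt_of_ne this with h | h
    · exact lt_of_le_of_lt (min_le_right _ _) (lt_of_lt_of_le (by linarith) (le_max_left _ _))
    · exact lt_of_le_of_lt (min_le_left _ _) (lt_of_lt_of_le (by linarith) (le_max_right _ _))
  simp only [n1, n2, true_and, and_true]
  unfold ovIZ
  rw [min_lt_iff, min_lt_iff, lt_max_iff, lt_max_iff, lt_max_iff, lt_max_iff]
  have c1 : ∀ x y : ℤ, ((x : ℝ) < y ↔ x < y) := fun x y => by exact_mod_cast Iff.rfl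
  have e1 : (a : ℝ) + t = ((a + t : ℤ) : ℝ) := by push_cast; ring
  have e2 : (b : ℝ) + s = ((b + s : ℤ) : ℝ) := by push_cast; ring
  rw [e1, e2]
  simp only [c1]
  tauto

lemma line_iff (d : Fin 4) (x y x' y' : ℤ) (τ : ℝ) :
    (((x' : ℝ), (y' : ℝ)) : Pt) = ((x : ℝ), (y : ℝ)) + τ • v0 d ↔
      inv d x y = inv d x' y' ∧ τ = (crd d x' y' : ℝ) - crd d x y := by
  fin_cases d
  · simp only [v0, inv, crd]
    simp only [Fin.zero_eta, Matrix.cons_val_zero, Prod.smul_mk, smul_eq_mul, mul_one, mul_zero,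
      Prod.mk_add_mk, add_zero, Prod.mk.injEq, if_true]
    constructor
    · rintro ⟨h1, h2⟩
      exact ⟨by exact_mod_cast h2.symm, by rw [h1]; ring⟩
    · rintro ⟨h1, h2⟩
      exact ⟨by rw [h2]; ring, by exact_mod_cast h1.symm⟩
  · simp only [v0, inv, crd]
    simp only [Fin.mk_one, Matrix.cons_val_one, Matrix.cons_val_zero, Prod.smul_mk, smul_eq_mul,
      mul_one, mul_zero, Prod.mk_add_mk, add_zero, Prod.mk.injEq, one_ne_zero, if_false, if_true]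
    constructor
    · rintro ⟨h1, h2⟩
      exact ⟨by exact_mod_cast h1.symm, by rw [h2]; ring⟩
    · rintro ⟨h1, h2⟩
      exact ⟨by exact_mod_cast h1.symm, by rw [h2]; ring⟩
  · have e0 : (⟨2, by norm_num⟩ : Fin 4) = 2 := rfl
    have e1 : (2 : Fin 4) ≠ 0 := by decide
    have e2 : (2 : Fin 4) ≠ 1 := by decide
    have e3 : v0 2 = (1, 1) := rfl
    simp only [e0, inv, crd, e1, e2, e3, if_false, if_true, Prod.smul_mk, smul_eq_mul, mul_one,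
      Prod.mk_add_mk, Prod.mk.injEq]
    constructor
    · rintro ⟨h1, h2⟩
      refine ⟨?_, by rw [h1]; ring⟩
      have : (x : ℝ) - y = x' - y' := by rw [h1, h2]; ring
      exact_mod_cast this
    · rintro ⟨h1, h2⟩
      have h3 : (x : ℝ) - y = x' - y' := by exact_mod_cast h1
      exact ⟨by rw [h2]; ring, by rw [h2]; linarith⟩
  · have e0 : (⟨3, by norm_num⟩ : Fin 4) = 3 := rfl
    have e1 : (3 : Fin 4) ≠ 0 := by decide
    have e2 : (3 : Fin 4) ≠ 1 := by decide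
    have e4 : (3 : Fin 4) ≠ 2 := by decide
    have e3 : v0 3 = (-1, 1) := rfl
    simp only [e0, inv, crd, e1, e2, e4, e3, if_false, Prod.smul_mk, smul_eq_mul, mul_one,
      mul_neg, Prod.mk_add_mk, Prod.mk.injEq]
    constructor
    · rintro ⟨h1, h2⟩
      refine ⟨?_, by rw [h2]; ring⟩
      have : (x : ℝ) + y = x' + y' := by rw [h1, h2]; ring
      exact_mod_cast this
    · rintro ⟨h1, h2⟩
      have h3 : (x : ℝ) + y = x' + y' := by exact_mod_cast h1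
      exact ⟨by rw [h2]; linarith, by rw [h2]; ring⟩

/-- Overlap along the direction `d`, in integers. -/
lemma arm_iff (d : Fin 4) (x y x' y' t t' : ℤ) (ht : t ≠ 0) (ht' : t' ≠ 0) :
    (∃ τ : ℝ, (((x' : ℝ), (y' : ℝ)) : Pt) = ((x : ℝ), (y : ℝ)) + τ • v0 d ∧ ovI 0 t τ t') ↔
      ovA x y d t x' y' d t' := by
  unfold ovA
  constructor
  · rintro ⟨τ, h1, h2⟩
    obtain ⟨h3, h4⟩ := (line_iff d x y x' y' τ).1 h1
    refine ⟨rfl, h3, ?_⟩
    rw [← ovI_ovIZ ht ht']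
    rw [ovI_shift _ _ _ _ (crd d x y : ℝ), h4] at h2
    simpa using h2
  · rintro ⟨_, h3, h4⟩
    refine ⟨(crd d x' y' : ℝ) - crd d x y, (line_iff d x y x' y' _).2 ⟨h3, rfl⟩, ?_⟩
    rw [← ovI_ovIZ ht ht'] at h4
    rw [ovI_shift _ _ _ _ (crd d x y : ℝ)]
    simpa using h4

lemma ov_iff_ovZ (P Q : Z) (hP : P.a ≠ P.b ∧ P.s ≠ 0 ∧ P.t ≠ 0)
    (hQ : Q.a ≠ Q.b ∧ Q.s ≠ 0 ∧ Q.t ≠ 0) : ov v0 (toPL P hP) (toPL Q hQ) ↔ ovZ P Q := by
  have Ta : ∀ (R : Z) (hR : R.a ≠ R.b ∧ R.s ≠ 0 ∧ R.t ≠ 0), (toPL R hR).T R.a = R.s := by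
    intro R hR; simp [toPL]
  have Tb : ∀ (R : Z) (hR : R.a ≠ R.b ∧ R.s ≠ 0 ∧ R.t ≠ 0), (toPL R hR).T R.b = R.t := by
    intro R hR; simp [toPL, hR.1.symm]
  constructor
  · rintro ⟨d, τ, h1, h2, h3, h4⟩
    have k1 := (toPL P hP).hT d h1
    have k2 := (toPL Q hQ).hT d h2
    change d = P.a ∨ d = P.b at k1
    change d = Q.a ∨ d = Q.b at k2
    rcases k1 with k1 | k1 <;> rcases k2 with k2 | k2
    · left
      rw [k1, Ta] at h4
      rw [← k1, k2, Ta] at h4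
      have := (arm_iff d P.x P.y Q.x Q.y P.s Q.s hP.2.1 hQ.2.1).1 ⟨τ, h3, h4⟩
      rw [← k1, ← k2]; exact this
    · right; left
      rw [k1, Ta] at h4
      rw [← k1, k2, Tb] at h4
      have := (arm_iff d P.x P.y Q.x Q.y P.s Q.t hP.2.1 hQ.2.2).1 ⟨τ, h3, h4⟩
      rw [← k1, ← k2]; exact this
    · right; right; left
      rw [k1, Tb] at h4
      rw [← k1, k2, Ta] at h4
      have := (arm_iff d P.x P.y Q.x Q.y P.t Q.s hP.2.2 hQ.2.1).1 ⟨τ, h3, h4⟩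
      rw [← k1, ← k2]; exact this
    · right; right; right
      rw [k1, Tb] at h4
      rw [← k1, k2, Tb] at h4
      have := (arm_iff d P.x P.y Q.x Q.y P.t Q.t hP.2.2 hQ.2.2).1 ⟨τ, h3, h4⟩
      rw [← k1, ← k2]; exact this
  · rintro (h | h | h | h)
    · obtain ⟨τ, h3, h4⟩ := (arm_iff P.a P.x P.y Q.x Q.y P.s Q.s hP.2.1 hQ.2.1).2 ⟨rfl, h.2⟩
      refine ⟨P.a, τ, (toPL P hP).ha, ?_, h3, ?_⟩
      · rw [h.1]; exact (toPL Q hQ).ha
      · rw [Ta, h.1, Ta]; exact h4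
    · obtain ⟨τ, h3, h4⟩ := (arm_iff P.a P.x P.y Q.x Q.y P.s Q.t hP.2.1 hQ.2.2).2 ⟨rfl, h.2⟩
      refine ⟨P.a, τ, (toPL P hP).ha, ?_, h3, ?_⟩
      · rw [h.1]; exact (toPL Q hQ).hb
      · rw [Ta, h.1, Tb]; exact h4
    · obtain ⟨τ, h3, h4⟩ := (arm_iff P.b P.x P.y Q.x Q.y P.t Q.s hP.2.2 hQ.2.1).2 ⟨rfl, h.2⟩
      refine ⟨P.b, τ, (toPL P hP).hb, ?_, h3, ?_⟩
      · rw [h.1]; exact (toPL Q hQ).ha
      · rw [Tb, h.1, Ta]; exact h4
    · obtain ⟨τ, h3, h4⟩ := (arm_iff P.b P.x P.y Q.x Q.y P.t Q.t hP.2.2 hQ.2.2).2 ⟨rfl, h.2⟩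
      refine ⟨P.b, τ, (toPL P hP).hb, ?_, h3, ?_⟩
      · rw [h.1]; exact (toPL Q hQ).hb
      · rw [Tb, h.1, Tb]; exact h4

/-- **Upper bound.** `G0` has an EPG(D)-representation with one bend as soon as `D` contains the
slopes `0, ∞, 1, -1`. -/
theorem hasRep {D : Finset (Submodule ℝ Pt)} (hD : ∀ i, Submodule.span ℝ {v0 i} ∈ D) :
    HasRep D 1 G0 := by
  refine ⟨fun x => (toPL (conf x) (conf_ok x)).pts v0, ?_, ?_⟩
  · intro x
    obtain ⟨c, hc, hx⟩ := exists_polyline indep_v0 (toPL (conf x) (conf_ok x)) (conf_ok x).1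
      (hD _) (hD _)
    exact ⟨1, le_rfl, c, hc, hx⟩
  · intro x y hxy
    rw [pts_inter indep_v0, ov_iff_ovZ]
    exact ⟨fun h => h.2, fun h => ⟨hxy, h⟩⟩

end Pool.Agent.H62.Bend
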