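import Mathlib
import Pool.Agent.H62.Bend3

/-!
Slope sets without quadrangles, of every size.
-/

set_option autoImplicit false
set_option linter.unusedSimpArgs false

namespace Pool.Agent.H62.Bend

open MvPolynomial

/-- The relation between the six slopes of a complete quadrangle, as a polynomial. -/
noncomputable def relP {n : ℕ} (a b c d e f : Fin n) : MvPolynomial (Fin n) ℝ :=
  (X a - X d) * (X c - X f) * (X e - X b) - (X a - X b) * (X c - X d) * (X e - X f)

/-- The non-degeneracy condition. -/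
def cond {n : ℕ} (a b c d e f : Fin n) : Prop :=
  b ≠ a ∧ a ≠ c ∧ c ≠ f ∧ f ≠ b ∧ d ≠ b ∧ d ≠ a ∧ d ≠ c ∧ d ≠ f ∧ e ≠ b ∧ e ≠ a ∧ e ≠ c ∧ e ≠ f

lemma relP_ne_zero {n : ℕ} {a b c d e f : Fin n} (h : cond a b c d e f) :
    relP a b c d e f ≠ 0 := by
  obtain ⟨h1, h2, h3, h4, h5, h6, h7, h8, h9, h10, h11, h12⟩ := h
  intro h0
  have h13 := congrArg (eval (fun i : Fin n => if i = a then (0 : ℝ) else if i = b then 1 else
    if i = d then 2 else if i = c then 3 else if i = e then 4 else if i = f then 5 else 0)) h0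
  simp only [relP, map_sub, map_mul, eval_X, map_zero, if_true] at h13
  by_cases k1 : f = a <;> by_cases k2 : c = b <;> by_cases k3 : e = d
  · subst k1 k2 k3
    simp [h1, h2, h3, h4, h5, h6, h7, h8, h9, h10, h11, h12, Ne.symm h1, Ne.symm h2, Ne.symm h5,
      Ne.symm h6] at h13
    norm_num at h13
  · subst k1 k2
    simp [h1, h5, h6, h9, h10, k3] at h13
    norm_num at h13
  · subst k1 k3
    simp [h1, h2.symm, h5, h6, k2, h7.symm] at h13
    norm_num at h13
  · subst k1
    simp [h1, h2.symm, h5, h6, k2, h7.symm, h9, h10, k3, h11] at h13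
    norm_num at h13
  · subst k2 k3
    simp [h1, h5, h6, k1, h4, h8.symm, h3.symm] at h13
    norm_num at h13
  · subst k2
    simp [h1, h5, h6, k1, h4, h8.symm, h3.symm, h9, h10, k3, h12.symm] at h13
    norm_num at h13
  · subst k3
    simp [h1, h5, h6, k1, h4, h8.symm, h3.symm, k2, h2.symm, h7.symm] at h13
    norm_num at h13
  · simp [h1, h5, h6, k1, h4, h8.symm, h3.symm, k2, h2.symm, h7.symm, h9, h10, k3, h11,
      h12.symm] at h13
    norm_num at h13

/-- There are `n` real slopes such that no quadrangle relation holds. -/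
lemma exists_slopes (n : ℕ) : ∃ x : Fin n → ℝ, Function.Injective x ∧
    ∀ a b c d e f : Fin n, cond a b c d e f →
      (x a - x d) * (x c - x f) * (x e - x b) ≠ (x a - x b) * (x c - x d) * (x e - x f) := by
  classical
  let Q1 : MvPolynomial (Fin n) ℝ :=
    ∏ p ∈ (Finset.univ : Finset (Fin n × Fin n)).filter (fun p => p.1 ≠ p.2), (X p.1 - X p.2)
  let Q2 : MvPolynomial (Fin n) ℝ :=
    ∏ p ∈ (Finset.univ : Finset (Fin n × Fin n × Fin n × Fin n × Fin n × Fin n)).filter
      (fun p => cond p.1 p.2.1 p.2.2.1 p.2.2.2.1 p.2.2.2.2.1 p.2.2.2.2.2),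
      relP p.1 p.2.1 p.2.2.1 p.2.2.2.1 p.2.2.2.2.1 p.2.2.2.2.2
  have hQ1 : Q1 ≠ 0 := by
    rw [Finset.prod_ne_zero_iff]
    intro p hp
    simp only [Finset.mem_filter, Finset.mem_univ, true_and] at hp
    intro h0
    exact hp (X_injective (sub_eq_zero.1 h0))
  have hQ2 : Q2 ≠ 0 := by
    rw [Finset.prod_ne_zero_iff]
    intro p hp
    simp only [Finset.mem_filter, Finset.mem_univ, true_and] at hp
    exact relP_ne_zero hp
  have hQ : Q1 * Q2 ≠ 0 := mul_ne_zero hQ1 hQ2
  have : ∃ x : Fin n → ℝ, eval x (Q1 * Q2) ≠ 0 := by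
    by_contra hcon
    push Not at hcon
    exact hQ (funext fun x => by rw [hcon x, map_zero])
  obtain ⟨x, hx⟩ := this
  rw [map_mul] at hx
  have hx1 : eval x Q1 ≠ 0 := left_ne_zero_of_mul hx
  have hx2 : eval x Q2 ≠ 0 := right_ne_zero_of_mul hx
  rw [map_prod, Finset.prod_ne_zero_iff] at hx1 hx2
  refine ⟨x, ?_, ?_⟩
  · intro i j hij
    by_contra hne
    have := hx1 (i, j) (by simpa using hne)
    simp only [map_sub, eval_X] at this
    exact this (sub_eq_zero.2 hij)
  · intro a b c d e f h heq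
    have := hx2 (a, b, c, d, e, f) (by simpa using h)
    simp only [relP, map_sub, map_mul, eval_X] at this
    exact this (sub_eq_zero.2 heq)

lemma span_inj {u w : Pt} (h : det u w ≠ 0) :
    Submodule.span ℝ {u} ≠ Submodule.span ℝ {w} := by
  intro heq
  have : w ∈ Submodule.span ℝ {u} := by
    rw [heq]; exact Submodule.mem_span_singleton_self w
  rw [Submodule.mem_span_singleton] at this
  obtain ⟨t, rfl⟩ := this
  apply h
  simp only [det, Prod.smul_fst, Prod.smul_snd, smul_eq_mul]
  ring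

/-- For every `n` there is a set of `n` slopes without quadrangles. -/
lemma exists_noQuad (n : ℕ) : ∃ v : Fin n → Pt, Indep v ∧ NoQuad v := by
  obtain ⟨x, hx, hr⟩ := exists_slopes n
  have hdet : ∀ i j : Fin n, det ((1, x i) : Pt) (1, x j) = x j - x i := by
    intro i j; simp [det]
  refine ⟨fun i => (1, x i), ⟨?_, ?_⟩, ?_⟩
  · intro i h
    have := congrArg Prod.fst h
    simp at this
  · intro i j hij
    rw [hdet]
    exact fun h => hij (hx (sub_eq_zero.1 h).symm)
  · intro s01 s02 s03 s12 s13 s23 h1 h2 h3 h4 h5 h6 h7 h8 h9 h10 h11 h12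
    rw [hdet, hdet, hdet, hdet, hdet, hdet]
    have := hr s12 s01 s23 s02 s13 s03 ⟨h1, h2, h3, h4, h5, h6, h7, h8, h9, h10,
      h11, h12⟩
    intro heq
    apply this
    linarith [heq]

end Pool.Agent.H62.Bend
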